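import Pool.Agent.H30.VTC.Model

set_option autoImplicit false

/-! The axioms of `VTC⁰` in the model. -/

namespace Pool.Agent.H30.VTC

open Filter Classical

/-- `s < t` as a formula -/
def Fm.lt (s t : NTm) : Fm := .and (.le s t) (.neg (.eq s t))

/-- the carry as a formula -/
def carryFm : Fm :=
  .neg (.all (.var 0) (.neg (.and (Fm.lt (.var 0) (.var 1)) (.and (.mem (.var 0) 0)
    (.and (.mem (.var 0) 1) (.all (.var 1) (.neg (.and (Fm.lt (.var 1) (.var 0))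
      (.and (Fm.lt (.var 0) (.var 2)) (.and (.neg (.mem (.var 0) 0))
        (.neg (.mem (.var 0) 1))))))))))))

theorem sat_carry (M : TS) (V : ℕ → M.Str) (v : ℕ → M.Num) : M.Sat V v carryFm ↔
    M.Carry (fun j => M.mem j (V 0)) (fun j => M.mem j (V 1)) (v 0) := by
  simp only [carryFm, Fm.lt, TS.Sat, TS.tm, cons, TS.Carry, TS.lt]
  push Not
  constructor
  · rintro ⟨k, h1, ⟨_, h2⟩, h3, h4, h5⟩
    refine ⟨k, ⟨h1, h2⟩, h3, h4, ?_⟩
    intro j hj1 hj2
    by_contra hcon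
    push Not at hcon
    exact hcon.2 (h5 j hj2.1 hj1 hj2 hcon.1)
  · rintro ⟨k, ⟨h1, h2⟩, h3, h4, h5⟩
    refine ⟨k, h1, ⟨h1, h2⟩, h3, h4, ?_⟩
    intro j hj1 hj2 hj3 hj4
    exact (h5 j hj2 hj3).resolve_left hj4

theorem ev_xor {p q : ℕ → Prop} : Xor (∀ᶠ n in (UU : Filter ℕ), p n) (∀ᶠ n in (UU : Filter ℕ), q n)
    ↔ ∀ᶠ n in (UU : Filter ℕ), Xor (p n) (q n) := by
  change ((∀ᶠ n in (UU : Filter ℕ), p n) ∧ ¬ (∀ᶠ n in (UU : Filter ℕ), q n)) ∨
    ((∀ᶠ n in (UU : Filter ℕ), q n) ∧ ¬ (∀ᶠ n in (UU : Filter ℕ), p n)) ↔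
    ∀ᶠ n in (UU : Filter ℕ), (p n ∧ ¬ q n) ∨ (q n ∧ ¬ p n)
  rw [Ultrafilter.eventually_or, eventually_and, eventually_and, Ultrafilter.eventually_not,
    Ultrafilter.eventually_not]

theorem ev_not_iff {p q : ℕ → Prop} (h : ¬ ((∀ᶠ n in (UU : Filter ℕ), p n) ↔
    (∀ᶠ n in (UU : Filter ℕ), q n))) : ∀ᶠ n in (UU : Filter ℕ), ¬ (p n ↔ q n) := by
  rw [Ultrafilter.eventually_not]
  intro h1
  exact h (eventually_congr h1)

theorem ev_imp_not_iff {p q : ℕ → Prop} (h : ∀ᶠ n in (UU : Filter ℕ), ¬ (p n ↔ q n)) :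
    ¬ ((∀ᶠ n in (UU : Filter ℕ), p n) ↔ (∀ᶠ n in (UU : Filter ℕ), q n)) := by
  intro h1
  by_cases hp : ∀ᶠ n in (UU : Filter ℕ), p n
  · obtain ⟨n, h2, h3, h4⟩ := (h.and (hp.and (h1.1 hp))).exists
    exact h2 (iff_of_true h3 h4)
  · have hq : ¬ ∀ᶠ n in (UU : Filter ℕ), q n := fun h2 => hp (h1.2 h2)
    rw [← Ultrafilter.eventually_not] at hp hq
    obtain ⟨n, h2, h3, h4⟩ := (h.and (hp.and hq)).exists
    exact h2 (iff_of_false h3 h4)

theorem testBit_of_size {X y : ℕ} (h : Nat.size X = y + 1) : X.testBit y = true := by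
  have h1 : X < 2 ^ (y + 1) := Nat.size_le.1 (by omega)
  have h2 : 2 ^ y ≤ X := by
    by_contra h3
    have := Nat.size_le.2 (not_le.1 h3)
    omega
  have e : X = 2 ^ y + (X - 2 ^ y) := by omega
  rw [e, Nat.testBit_two_pow_add_eq, Nat.testBit_lt_two_pow]
  · rfl
  · rw [pow_succ] at h1; omega

variable {S : Set (ℕ → ℕ)} {G : Set U} (hS : Rich S) (hG : om ∈ G)

theorem mod_mem (x : (Mod hS hG).Num) (X : (Mod hS hG).Str) : (Mod hS hG).mem x X ↔
    ∀ᶠ n in (UU : Filter ℕ), (rep X.1 n).testBit (rep x.1 n) = true := Iff.rfl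

theorem mod_le (x y : (Mod hS hG).Num) : (Mod hS hG).le x y ↔
    ∀ᶠ n in (UU : Filter ℕ), rep x.1 n ≤ rep y.1 n := Iff.rfl

theorem mod_carry (a b : (Mod hS hG).Str) (i : (Mod hS hG).Num) :
    (Mod hS hG).Carry (fun j => (Mod hS hG).mem j a) (fun j => (Mod hS hG).mem j b) i ↔
    ∀ᶠ n in (UU : Filter ℕ), N0.Carry (fun j => (rep a.1 n).testBit j = true)
      (fun j => (rep b.1 n).testBit j = true) (rep i.1 n) := by
  have h1 := sat_carry (Mod hS hG) (fun k => if k = 0 then a else b) (fun _ => i)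
  have h2 := los hS hG carryFm (fun k => if k = 0 then a else b) (fun _ => i)
  rw [h1] at h2
  simp only [if_true, one_ne_zero, if_false] at h2
  rw [h2]
  refine eventually_congr (Eventually.of_forall (fun n => ?_))
  have h3 := sat_carry N0 (fun j => rep (if j = 0 then a else b).1 n) (fun _ => rep i.1 n)
  rw [h3]
  simp

theorem mod_sumBit (a b : (Mod hS hG).Str) (i : (Mod hS hG).Num) :
    (Mod hS hG).SumBit (fun j => (Mod hS hG).mem j a) (fun j => (Mod hS hG).mem j b) i ↔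
    ∀ᶠ n in (UU : Filter ℕ), (rep a.1 n + rep b.1 n).testBit (rep i.1 n) = true := by
  unfold TS.SumBit
  beta_reduce
  rw [mod_carry, mod_mem, mod_mem, ev_xor, ev_xor]
  refine eventually_congr (Eventually.of_forall (fun n => ?_))
  exact sumBit_nat _ _ _

/-- a number of the model -/
noncomputable def mkN (f : ℕ → ℕ) (hf : Hull S G (f : U)) (n : ℕ)
    (h : ∀ᶠ i in (UU : Filter ℕ), f i ≤ i ^ n) : (Mod hS hG).Num := ⟨(f : U), numP_mk hf n h⟩

theorem rep_mkN (f : ℕ → ℕ) (hf : Hull S G (f : U)) (n : ℕ)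
    (h : ∀ᶠ i in (UU : Filter ℕ), f i ≤ i ^ n) :
    ∀ᶠ i in (UU : Filter ℕ), rep (mkN hS hG f hf n h).1 i = f i := rep_mk _

/-- a string of the model -/
noncomputable def mkS (f : ℕ → ℕ) (hf : Hull S G (f : U)) (n : ℕ)
    (h : ∀ᶠ i in (UU : Filter ℕ), f i < 2 ^ (i ^ n)) : (Mod hS hG).Str := ⟨(f : U), strP_mk hf n h⟩

theorem rep_mkS (f : ℕ → ℕ) (hf : Hull S G (f : U)) (n : ℕ)
    (h : ∀ᶠ i in (UU : Filter ℕ), f i < 2 ^ (i ^ n)) :
    ∀ᶠ i in (UU : Filter ℕ), rep (mkS hS hG f hf n h).1 i = f i := rep_mk _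

/-- the top difference of two different strings -/
theorem exists_tdb {X Y : (Mod hS hG).Str} (h : X ≠ Y) : ∃ t : (Mod hS hG).Num,
    ∀ᶠ n in (UU : Filter ℕ), ((rep X.1 n).testBit (rep t.1 n) ≠ (rep Y.1 n).testBit (rep t.1 n) ∧
      ∀ j, rep t.1 n < j → (rep X.1 n).testBit j = (rep Y.1 n).testBit j) := by
  rw [str_ne] at h
  obtain ⟨hX, a, ha⟩ := X.2
  obtain ⟨hY, b, hb⟩ := Y.2
  have hbd : ∀ᶠ n in (UU : Filter ℕ), tdb (Nat.pair (rep X.1 n) (rep Y.1 n)) ≤ n ^ (a + b + 1) := by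
    filter_upwards [ha, hb, ev_two] with n h1 h2 h3
    have h4 := pow_add_pow_le (i := n) (n := a) (m := b) h3
    exact tdb_lt (lt_of_lt_of_le h1 (Nat.pow_le_pow_right (by norm_num) (by omega)))
      (lt_of_lt_of_le h2 (Nat.pow_le_pow_right (by norm_num) (by omega)))
  refine ⟨mkN hS hG _ (hmap hS.tdb (hpair (hull_rep hX) (hull_rep hY))) (a + b + 1) hbd, ?_⟩
  filter_upwards [h, rep_mkN hS hG _ (hmap hS.tdb (hpair (hull_rep hX) (hull_rep hY)))
    (a + b + 1) hbd] with n h1 h2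
  rw [h2]
  exact tdb_spec h1

/-- extensionality -/
theorem str_ext {X Y : (Mod hS hG).Str}
    (h : ∀ j : (Mod hS hG).Num, (Mod hS hG).mem j X ↔ (Mod hS hG).mem j Y) : X = Y := by
  by_contra hne
  obtain ⟨t, ht⟩ := exists_tdb hS hG hne
  refine ev_imp_not_iff ?_ (h t)
  filter_upwards [ht] with n h1
  intro h2
  exact h1.1 (by rw [Bool.eq_iff_iff]; exact h2)

theorem mod_b12 (x : (Mod hS hG).Num) (hx : x ≠ (Mod hS hG).zero) :
    ∃ y, (Mod hS hG).le y x ∧ (Mod hS hG).add y (Mod hS hG).one = x := by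
  obtain ⟨a, ha⟩ := x.2.2
  have hb : ∀ᶠ n in (UU : Filter ℕ), rep x.1 n - 1 ≤ n ^ a := by
    filter_upwards [ha] with n h1
    omega
  refine ⟨mkN hS hG _ (hmap hS.pred (hull_rep x.2.1)) a hb, ?_, ?_⟩
  · rw [mod_le]
    filter_upwards [rep_mkN hS hG _ (hmap hS.pred (hull_rep x.2.1)) a hb] with n h1
    rw [h1]
    omega
  · rw [num_eq]
    rw [num_ne] at hx
    filter_upwards [rep_mkN hS hG _ (hmap hS.pred (hull_rep x.2.1)) a hb, hx, r_zero hS hG,
      r_one hS hG, r_add hS hG (mkN hS hG _ (hmap hS.pred (hull_rep x.2.1)) a hb)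
        (Mod hS hG).one] with n h1 h2 h3 h4 h5
    rw [h3] at h2
    rw [h5, h1, h4]
    omega

theorem r_pr (x y : (Mod hS hG).Num) : ∀ᶠ n in (UU : Filter ℕ),
    rep ((Mod hS hG).pr x y).1 n = prn (rep x.1 n) (rep y.1 n) := by
  unfold TS.pr prn
  filter_upwards [r_add hS hG ((Mod hS hG).mul ((Mod hS hG).add x y)
      ((Mod hS hG).add ((Mod hS hG).add x y) (Mod hS hG).one))
      ((Mod hS hG).mul ((Mod hS hG).add (Mod hS hG).one (Mod hS hG).one) y),
    r_mul hS hG ((Mod hS hG).add x y) ((Mod hS hG).add ((Mod hS hG).add x y) (Mod hS hG).one),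
    r_add hS hG ((Mod hS hG).add x y) (Mod hS hG).one, r_add hS hG x y, r_one hS hG,
    r_mul hS hG ((Mod hS hG).add (Mod hS hG).one (Mod hS hG).one) y,
    r_add hS hG (Mod hS hG).one (Mod hS hG).one] with n h1 h2 h3 h4 h5 h6 h7
  rw [h1, h2, h3, h4, h6, h7, h5]

theorem prn_le_pow {x y i a b : ℕ} (hi : 2 ≤ i) (hx : x ≤ i ^ a) (hy : y ≤ i ^ b) :
    prn x y + 1 ≤ i ^ (2 * (a + b) + 6) := by
  have h1 : x ≤ i ^ (a + b) := hx.trans (Nat.pow_le_pow_right (by omega) (by omega))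
  have h2 : y ≤ i ^ (a + b) := hy.trans (Nat.pow_le_pow_right (by omega) (by omega))
  have h3 : 1 ≤ i ^ (a + b) := Nat.one_le_pow _ _ (by omega)
  have h4 : 2 ^ 4 ≤ i ^ 4 := Nat.pow_le_pow_left hi 4
  have h5 : i ^ (2 * (a + b) + 6) = i ^ (a + b) * i ^ (a + b) * (i ^ 4 * i ^ 2) := by
    rw [← pow_add, ← pow_add, ← pow_add]
    congr 1
    omega
  have h6 : 2 ^ 2 ≤ i ^ 2 := Nat.pow_le_pow_left hi 2
  have h7 : 2 ^ 4 * 2 ^ 2 ≤ i ^ 4 * i ^ 2 := Nat.mul_le_mul h4 h6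
  rw [h5]
  generalize i ^ (a + b) = P at *
  unfold prn
  calc (x + y) * (x + y + 1) + (1 + 1) * y + 1 ≤ (P + P) * (P + P + 1) + (1 + 1) * P + 1 := by
        gcongr
    _ ≤ P * P * (2 ^ 4 * 2 ^ 2) := by nlinarith
    _ ≤ P * P * (i ^ 4 * i ^ 2) := Nat.mul_le_mul_left _ h7

theorem mod_numones (X : (Mod hS hG).Str) (y : (Mod hS hG).Num) :
    ∃ Z, (Mod hS hG).mem ((Mod hS hG).pr (Mod hS hG).zero (Mod hS hG).zero) Z ∧
    (∀ u, (Mod hS hG).le u y → ∃! w, (Mod hS hG).mem ((Mod hS hG).pr u w) Z) ∧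
    ∀ u w, (Mod hS hG).lt u y → (Mod hS hG).mem ((Mod hS hG).pr u w) Z →
      ((Mod hS hG).mem u X → (Mod hS hG).mem ((Mod hS hG).pr
        ((Mod hS hG).add u (Mod hS hG).one) ((Mod hS hG).add w (Mod hS hG).one)) Z) ∧
      (¬ (Mod hS hG).mem u X → (Mod hS hG).mem ((Mod hS hG).pr
        ((Mod hS hG).add u (Mod hS hG).one) w) Z) := by
  obtain ⟨hX, a, ha⟩ := X.2
  obtain ⟨hy, b, hb⟩ := y.2
  have hZb : ∀ᶠ n in (UU : Filter ℕ), numtab (Nat.pair (rep X.1 n) (rep y.1 n)) <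
      2 ^ (n ^ (2 * (b + b) + 6)) := by
    filter_upwards [hb, ev_two] with n h1 h2
    exact lt_of_lt_of_le (numtab_lt _ _) (Nat.pow_le_pow_right (by norm_num)
      (prn_le_pow h2 h1 h1))
  let Z := mkS hS hG _ (hmap hS.numtab (hpair (hull_rep hX) (hull_rep hy))) _ hZb
  have hZ : ∀ᶠ n in (UU : Filter ℕ), rep Z.1 n = numtab (Nat.pair (rep X.1 n) (rep y.1 n)) :=
    rep_mkS hS hG _ _ _ _
  have key : ∀ u w, (Mod hS hG).le u y → ((Mod hS hG).mem ((Mod hS hG).pr u w) Z ↔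
      ∀ᶠ n in (UU : Filter ℕ), rep w.1 n = cntf (rep X.1 n) (rep u.1 n)) := by
    intro u w hu
    rw [mod_le] at hu
    rw [mod_mem]
    refine eventually_congr ?_
    filter_upwards [hu, hZ, r_pr hS hG u w] with n h1 h2 h3
    rw [h2, h3]
    exact numtab_spec h1
  refine ⟨Z, ?_, ?_, ?_⟩
  · rw [key _ _ (by
      rw [mod_le]
      filter_upwards [r_zero hS hG] with n h1
      rw [h1]; omega)]
    filter_upwards [r_zero hS hG] with n h1
    rw [h1]
    rfl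
  · intro u hu
    have hwb : ∀ᶠ n in (UU : Filter ℕ), cntf (Nat.pair (rep X.1 n) (rep u.1 n)).unpair.1
        (Nat.pair (rep X.1 n) (rep u.1 n)).unpair.2 ≤ n ^ b := by
      rw [mod_le] at hu
      filter_upwards [hb, hu] with n h1 h2
      simp only [Nat.unpair_pair]
      exact ((cntf_le _ _).trans h2).trans h1
    refine ⟨mkN hS hG _ (hmap hS.cnt (hpair (hull_rep hX) (hull_rep u.2.1))) b hwb, ?_, ?_⟩
    · change (Mod hS hG).mem ((Mod hS hG).pr u _) Z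
      rw [key _ _ hu]
      filter_upwards [rep_mkN hS hG _ (hmap hS.cnt (hpair (hull_rep hX) (hull_rep u.2.1))) b hwb]
        with n h1
      rw [h1]
      simp
    · intro w hw
      have hw' : (Mod hS hG).mem ((Mod hS hG).pr u w) Z := hw
      rw [key _ _ hu] at hw'
      rw [num_eq]
      filter_upwards [rep_mkN hS hG _ (hmap hS.cnt (hpair (hull_rep hX) (hull_rep u.2.1))) b hwb,
        hw'] with n h1 h2
      rw [h1, h2]
      simp
  · intro u w hu hw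
    rw [mod_lt] at hu
    have hu' : (Mod hS hG).le u y := by
      rw [mod_le]
      filter_upwards [hu] with n h1 using h1.le
    have hu1 : (Mod hS hG).le ((Mod hS hG).add u (Mod hS hG).one) y := by
      rw [mod_le]
      filter_upwards [hu, r_add hS hG u (Mod hS hG).one, r_one hS hG] with n h1 h2 h3
      rw [h2, h3]
      omega
    rw [key _ _ hu'] at hw
    rw [key _ _ hu1, key _ _ hu1]
    constructor
    · intro h
      rw [mod_mem] at h
      filter_upwards [h, hw, r_add hS hG u (Mod hS hG).one, r_add hS hG w (Mod hS hG).one,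
        r_one hS hG] with n h1 h2 h3 h4 h5
      rw [h3, h4, h5, cntf, if_pos h1, h2]
    · intro h
      rw [mod_mem, ← Ultrafilter.eventually_not] at h
      filter_upwards [h, hw, r_add hS hG u (Mod hS hG).one, r_one hS hG] with n h1 h2 h3 h5
      rw [h3, h5, cntf, if_neg h1, h2]

end Pool.Agent.H30.VTC
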