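import Mathlib

set_option autoImplicit false

/-! Countable closures, hulls of sets of hypernatural numbers, and the extension lemma. -/

namespace Pool.Agent.H30.VTC

open Filter

/-- the closure of a countable set under countably many binary operations is countable -/
theorem exists_countable_closed {α ι : Type*} [Countable ι] (Φ : ι → α → α → α) (A : Set α)
    (hA : A.Countable) :
    ∃ B : Set α, A ⊆ B ∧ B.Countable ∧ ∀ i, ∀ x ∈ B, ∀ y ∈ B, Φ i x y ∈ B := by
  let F : ℕ → Set α := fun n => Nat.rec A (fun _ B => B ∪ ⋃ i, Set.image2 (Φ i) B B) n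
  have hF : ∀ n, F (n + 1) = F n ∪ ⋃ i, Set.image2 (Φ i) (F n) (F n) := fun n => rfl
  have hmono : Monotone F := monotone_nat_of_le_succ (fun n => by
    rw [hF]; exact Set.subset_union_left)
  refine ⟨⋃ n, F n, ?_, ?_, ?_⟩
  · exact Set.subset_iUnion F 0
  · refine Set.countable_iUnion (fun n => ?_)
    induction n with
    | zero => exact hA
    | succ n ih =>
      rw [hF]
      exact ih.union (Set.countable_iUnion (fun i => ih.image2 ih _))
  · intro i x hx y hy
    obtain ⟨m, hm⟩ := Set.mem_iUnion.1 hx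
    obtain ⟨n, hn⟩ := Set.mem_iUnion.1 hy
    refine Set.mem_iUnion.2 ⟨max m n + 1, ?_⟩
    rw [hF]
    refine Or.inr (Set.mem_iUnion.2 ⟨i, ?_⟩)
    exact ⟨x, hmono (le_max_left m n) hm, y, hmono (le_max_right m n) hn, rfl⟩

/-- the ultrafilter -/
noncomputable abbrev UU : Ultrafilter ℕ := hyperfilter ℕ

/-- hypernatural numbers -/
abbrev U : Type := Germ (UU : Filter ℕ) ℕ

/-- a representative -/
noncomputable def rep (x : U) : ℕ → ℕ := Quotient.out x

theorem rep_coe (x : U) : ((rep x : ℕ → ℕ) : U) = x := Quotient.out_eq x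

/-- pairing of hypernaturals -/
noncomputable def prU (x y : U) : U := Germ.map₂ Nat.pair x y

/-- hull of `G` under pairing and functions from `S` -/
inductive Hull (S : Set (ℕ → ℕ)) (G : Set U) : U → Prop
  | base (x : U) : x ∈ G → Hull S G x
  | map (f : ℕ → ℕ) (x : U) : f ∈ S → Hull S G x → Hull S G (x.map f)
  | pair (x y : U) : Hull S G x → Hull S G y → Hull S G (prU x y)

theorem Hull.mono {S : Set (ℕ → ℕ)} {G H : Set U} (h : G ⊆ H) {x : U} (hx : Hull S G x) :
    Hull S H x := by
  induction hx with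
  | base x hx => exact .base x (h hx)
  | map f x hf _ ih => exact .map f x hf ih
  | pair x y _ _ ih1 ih2 => exact .pair x y ih1 ih2

theorem Hull.trans {S : Set (ℕ → ℕ)} {G H : Set U} (h : ∀ x ∈ G, Hull S H x) {x : U}
    (hx : Hull S G x) : Hull S H x := by
  induction hx with
  | base x hx => exact h x hx
  | map f x hf _ ih => exact .map f x hf ih
  | pair x y _ _ ih1 ih2 => exact .pair x y ih1 ih2

theorem Hull.countable {S : Set (ℕ → ℕ)} {G : Set U} (hS : S.Countable) (hG : G.Countable) :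
    {x | Hull S G x}.Countable := by
  have : Countable S := hS.to_subtype
  let Φ : Option S → U → U → U := fun o x y => match o with
    | none => prU x y
    | some f => x.map f.1
  obtain ⟨B, h1, h2, h3⟩ := exists_countable_closed Φ G hG
  refine h2.mono ?_
  intro x hx
  induction hx with
  | base x hx => exact h1 hx
  | map f x hf _ ih => exact h3 (some ⟨f, hf⟩) x ih x ih
  | pair x y _ _ ih1 ih2 => exact h3 none x ih1 y ih2

/-- a hull over the union of a chain is a union of hulls -/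
theorem Hull.chain {S : Set (ℕ → ℕ)} {c : Set (Set U)} (hc : IsChain (· ⊆ ·) c)
    {x : U} (hx : Hull S (⋃₀ c) x) : ∃ G ∈ c, Hull S G x := by
  induction hx with
  | base x hx =>
    obtain ⟨G, hG, hxG⟩ := hx
    exact ⟨G, hG, .base x hxG⟩
  | map f x hf _ ih =>
    obtain ⟨G, hG, h⟩ := ih
    exact ⟨G, hG, .map f x hf h⟩
  | pair x y _ _ ih1 ih2 =>
    obtain ⟨G, hG, h1⟩ := ih1
    obtain ⟨H, hH, h2⟩ := ih2
    rcases hc.total hG hH with h | h
    · exact ⟨H, hH, .pair x y (h1.mono h) h2⟩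
    · exact ⟨G, hG, .pair x y h1 (h2.mono h)⟩

/-! ### operators -/

open Classical in
/-- the set `{x < b : g (pair q x) = 1}` -/
noncomputable def dset (g : ℕ → ℕ) (q b : ℕ) : Finset ℕ :=
  (Finset.range b).filter (fun x => g (Nat.pair q x) = 1)

open Classical in
/-- the number of `x < b` with `g (pair q x) = 1` and `f (pair q x) = v` -/
noncomputable def cnt (g f : ℕ → ℕ) (q b v : ℕ) : ℕ :=
  ((dset g q b).filter (fun x => f (Nat.pair q x) = v)).card

/-- a most popular value below `m` (or `0` if `m = 0`) -/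
theorem exists_pop (g f : ℕ → ℕ) (q b m : ℕ) :
    ∃ v, v ≤ m ∧ ∀ w ≤ m, cnt g f q b w ≤ cnt g f q b v := by
  obtain ⟨v, hv, hmax⟩ := Finset.exists_max_image (Finset.range (m + 1)) (cnt g f q b)
    ⟨0, by simp⟩
  exact ⟨v, by simpa [Nat.lt_succ_iff] using hv, fun w hw => hmax w (by simpa [Nat.lt_succ_iff])⟩

/-- the most popular value, as a function of `pair q (pair b m)` -/
noncomputable def pop (g f : ℕ → ℕ) (c : ℕ) : ℕ :=
  (exists_pop g f c.unpair.1 c.unpair.2.unpair.1 c.unpair.2.unpair.2).choose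

open Classical in
/-- restriction to the points where `f` has the value `v`: input `pair (pair q v) x` -/
noncomputable def andEq (g f : ℕ → ℕ) (c : ℕ) : ℕ :=
  if g (Nat.pair c.unpair.1.unpair.1 c.unpair.2) = 1 ∧
    f (Nat.pair c.unpair.1.unpair.1 c.unpair.2) = c.unpair.1.unpair.2 then 1 else 0

open Classical in
/-- restriction to the points where `f` is larger than `v`: input `pair (pair q v) x` -/
noncomputable def andGt (g f : ℕ → ℕ) (c : ℕ) : ℕ :=
  if g (Nat.pair c.unpair.1.unpair.1 c.unpair.2) = 1 ∧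
    c.unpair.1.unpair.2 < f (Nat.pair c.unpair.1.unpair.1 c.unpair.2) then 1 else 0

open Classical in
/-- restriction to the points different from `v`: input `pair (pair q v) x` -/
noncomputable def andNe (g : ℕ → ℕ) (c : ℕ) : ℕ :=
  if g (Nat.pair c.unpair.1.unpair.1 c.unpair.2) = 1 ∧ c.unpair.2 ≠ c.unpair.1.unpair.2 then 1
  else 0

/-- closure conditions on the set of functions -/
structure Closed (S : Set (ℕ → ℕ)) : Prop where
  id : (fun n => n) ∈ S
  fst : (fun n => n.unpair.1) ∈ S
  snd : (fun n => n.unpair.2) ∈ S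
  one : (fun _ => 1) ∈ S
  comp : ∀ f ∈ S, ∀ g ∈ S, (fun n => f (g n)) ∈ S
  prod : ∀ f ∈ S, ∀ g ∈ S, (fun n => Nat.pair (f n) (g n)) ∈ S
  pop : ∀ g ∈ S, ∀ f ∈ S, pop g f ∈ S
  andEq : ∀ g ∈ S, ∀ f ∈ S, andEq g f ∈ S
  andGt : ∀ g ∈ S, ∀ f ∈ S, andGt g f ∈ S
  andNe : ∀ g ∈ S, andNe g ∈ S
  pow : ∀ n : ℕ, (fun m => m ^ n) ∈ S
  two_pow : (fun m => 2 ^ m) ∈ S

/-- every countable set of functions has a countable closed superset -/
theorem exists_closed (A : Set (ℕ → ℕ)) (hA : A.Countable) :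
    ∃ S : Set (ℕ → ℕ), A ⊆ S ∧ S.Countable ∧ Closed S := by
  let Φ : Fin 6 → (ℕ → ℕ) → (ℕ → ℕ) → (ℕ → ℕ) := fun i f g => match i with
    | 0 => fun n => f (g n)
    | 1 => fun n => Nat.pair (f n) (g n)
    | 2 => pop f g
    | 3 => andEq f g
    | 4 => andGt f g
    | 5 => andNe f
  obtain ⟨B, h1, h2, h3⟩ := exists_countable_closed Φ
    (A ∪ ({(fun n => n), (fun n => n.unpair.1), (fun n => n.unpair.2), (fun _ => 1),
      (fun m => 2 ^ m)} ∪ Set.range (fun n : ℕ => fun m : ℕ => m ^ n)))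
    (hA.union ((Set.toFinite _).countable.union (Set.countable_range _)))
  refine ⟨B, fun x hx => h1 (Or.inl hx), h2, ?_⟩
  constructor
  · exact h1 (Or.inr (Or.inl (by simp)))
  · exact h1 (Or.inr (Or.inl (by simp)))
  · exact h1 (Or.inr (Or.inl (by simp)))
  · exact h1 (Or.inr (Or.inl (by simp)))
  · exact fun f hf g hg => h3 0 f hf g hg
  · exact fun f hf g hg => h3 1 f hf g hg
  · exact fun f hf g hg => h3 2 f hf g hg
  · exact fun f hf g hg => h3 3 f hf g hg
  · exact fun f hf g hg => h3 4 f hf g hg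
  · exact fun f hf => h3 5 f hf f hf
  · exact fun n => h1 (Or.inr (Or.inr ⟨n, rfl⟩))
  · exact h1 (Or.inr (Or.inl (by simp)))

/-- normal form of the elements of the hull after adding one element -/
theorem Hull.insert {S : Set (ℕ → ℕ)} (hS : Closed S) {G : Set U} {a X : U} (ha : a ∈ G)
    {y : U} (hy : Hull S (insert X G) y) :
    ∃ f ∈ S, ∃ k, Hull S G k ∧ y = (prU k X).map f := by
  induction hy with
  | base y hy =>
    rcases hy with rfl | hy
    · refine ⟨_, hS.snd, a, .base a ha, ?_⟩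
      induction a, y using Germ.inductionOn₂ with
      | _ a y => simp [prU, Germ.map₂_coe, Germ.map_coe, Function.comp_def]
    · refine ⟨_, hS.fst, y, .base y hy, ?_⟩
      induction X, y using Germ.inductionOn₂ with
      | _ a y => simp [prU, Germ.map₂_coe, Germ.map_coe, Function.comp_def]
  | map g y hg _ ih =>
    obtain ⟨f, hf, k, hk, rfl⟩ := ih
    exact ⟨_, hS.comp g hg f hf, k, hk, by rw [Germ.map_map]; rfl⟩
  | pair y z _ _ ih1 ih2 =>
    obtain ⟨f, hf, k, hk, rfl⟩ := ih1
    obtain ⟨g, hg, l, hl, rfl⟩ := ih2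
    have e1 : (fun n => Nat.pair n.unpair.1.unpair.1 n.unpair.2) ∈ S :=
      hS.prod _ (hS.comp _ hS.fst _ hS.fst) _ hS.snd
    have e2 : (fun n => Nat.pair n.unpair.1.unpair.2 n.unpair.2) ∈ S :=
      hS.prod _ (hS.comp _ hS.snd _ hS.fst) _ hS.snd
    refine ⟨_, hS.prod _ (hS.comp f hf _ e1) _ (hS.comp g hg _ e2), prU k l, .pair k l hk hl, ?_⟩
    induction k, l using Germ.inductionOn₂ with
    | _ k l =>
      induction X using Germ.inductionOn with
      | _ X => simp [prU, Germ.map₂_coe, Germ.map_coe, Function.comp_def]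

end Pool.Agent.H30.VTC
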