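import Pool.Agent.H30.VTC.Ring

set_option autoImplicit false

/-! The counting argument, and the model. -/

universe u

namespace Pool.Agent.H30.VTC

open Filter Classical

/-- an exponential integer part of a real-closed exponential field in which countably many elements
are cofinal up to a factor two is countable -/
theorem countable_of_isExpIP (R : Type) [CommRing R] [LinearOrder R] [IsStrictOrderedRing R]
    {K : Type} [Countable K] (p : K → R)
    (hp : ∀ r : R, 0 < r → ∃ k, p k ≤ r ∧ r ≤ p k + p k) (h : IsExpIP.{u} R) : Countable R := by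
  obtain ⟨F, _, _, _, _, E, ι, hEm, hEa, hEs, hE1, hιm, hd, _, hexp⟩ := h
  have key : ∀ a : {a : R // 0 < a}, ∃ k, ∃ b : R, E (ι a.1) = ι b ∧ p k ≤ b ∧ b ≤ p k + p k := by
    rintro ⟨a, ha⟩
    obtain ⟨b, hb⟩ := hexp a ha
    have hb0 : 0 < b := by
      have h1 : 0 < E (ι a) := (hEs _).2 ⟨_, rfl⟩
      rw [hb] at h1
      rw [← map_zero ι] at h1
      exact hιm.lt_iff_lt.1 h1
    obtain ⟨k, hk⟩ := hp b hb0
    exact ⟨k, b, hb, hk⟩
  choose f b hf1 hf2 hf3 using key
  have hle : ∀ a a' : {a : R // 0 < a}, f a = f a' → a.1 ≤ a'.1 + 1 := by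
    intro a a' haa
    have h1 : b a ≤ b a' + b a' := by
      have h2 := hf3 a
      have h3 := hf2 a'
      rw [haa] at h2
      linarith
    have h2 : E (ι a.1) ≤ E (ι (a'.1 + 1)) := by
      rw [map_add, map_one, hEa, hE1, hf1 a, hf1 a', mul_two, ← map_add]
      exact hιm.monotone h1
    exact hιm.le_iff_le.1 (hEm.le_iff_le.1 h2)
  have hpos : Set.Countable {a : R | 0 < a} := by
    have h1 : ∀ k, Set.Countable {a : {a : R // 0 < a} | f a = k} := by
      intro k
      rcases Set.eq_empty_or_nonempty {a : {a : R // 0 < a} | f a = k} with h0 | ⟨a₀, ha₀⟩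
      · rw [h0]; exact Set.countable_empty
      · have h2 : (Subtype.val '' {a : {a : R // 0 < a} | f a = k}) ⊆
            {a₀.1 - 1, a₀.1, a₀.1 + 1} := by
          rintro _ ⟨a, ha, rfl⟩
          have h3 := hle a a₀ (ha.trans ha₀.symm)
          have h4 := hle a₀ a (ha₀.trans ha.symm)
          simp only [Set.mem_insert_iff, Set.mem_singleton_iff]
          rcases lt_trichotomy a.1 a₀.1 with h5 | h5 | h5
          · have h6 := hd (a₀.1 - a.1) (by linarith)
            left; linarith
          · right; left; exact h5
          · have h6 := hd (a.1 - a₀.1) (by linarith)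
            right; right; linarith
        have h3 : (Subtype.val '' {a : {a : R // 0 < a} | f a = k}).Countable :=
          ((Set.toFinite _).countable).mono h2
        exact Set.countable_of_injective_of_countable_image
          (Subtype.val_injective.injOn) h3
    have h2 : (Set.univ : Set {a : R // 0 < a}).Countable := by
      have h3 : (Set.univ : Set {a : R // 0 < a}) = ⋃ k, {a | f a = k} := by
        ext a
        simp
      rw [h3]
      exact Set.countable_iUnion h1
    have h3 : Countable {a : R // 0 < a} := Set.countable_univ_iff.1 h2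
    exact Set.countable_coe_iff.1 h3
  have hall : (Set.univ : Set R) ⊆ {a : R | 0 < a} ∪ ({0} ∪ (fun a => -a) '' {a : R | 0 < a}) := by
    intro a _
    rcases lt_trichotomy a 0 with h1 | h1 | h1
    · exact Or.inr (Or.inr ⟨-a, by simpa using h1, by simp⟩)
    · exact Or.inr (Or.inl h1)
    · exact Or.inl h1
  exact Set.countable_univ_iff.1 ((hpos.union ((Set.countable_singleton 0).union
    (hpos.image _))).mono hall)

/-- an uncountable model with a countable number sort -/
theorem exists_model : ∃ (S : Set (ℕ → ℕ)) (G : Set U) (hS : Rich S) (hG : om ∈ G),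
    Countable (Mod hS hG).Num ∧ Uncountable (Mod hS hG).Str := by
  obtain ⟨S, hSc, hS⟩ := exists_rich
  obtain ⟨G, hG, hGu, hGlt, hGs⟩ := exists_gen hS.cl hSc
  refine ⟨S, G, hS, hG, ?_, ?_⟩
  · have h1 : {x : U | NumP S G x} ⊆ {x | Hull S {om} x} := by
      rintro x ⟨hx, n, hn⟩
      refine hGs x hx n ?_
      rw [← rep_coe x]
      change _ ≤ ((fun i => i ^ n : ℕ → ℕ) : U)
      rw [Germ.coe_le]
      exact hn
    have h2 : {x : U | NumP S G x}.Countable :=
      (Hull.countable hSc (Set.countable_singleton om)).mono h1
    exact h2.to_subtype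
  · by_contra hcon
    rw [not_uncountable_iff] at hcon
    apply hGu
    have h1 : G ⊆ {X : U | StrP S G X} := by
      intro x hx
      refine ⟨.base x hx, 1, ?_⟩
      have h2 := hGlt x hx
      rw [← rep_coe x] at h2
      change _ < ((fun i => 2 ^ i : ℕ → ℕ) : U) at h2
      rw [Germ.coe_lt] at h2
      filter_upwards [h2] with i h3
      rw [pow_one]
      exact h3
    have h2 : Countable {X : U | StrP S G X} := hcon
    exact (Set.countable_coe_iff.1 h2).mono h1

end Pool.Agent.H30.VTC
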