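import Mathlib

set_option autoImplicit false

/-!
# Two-sorted bounded arithmetic, the theory `VTC⁰`, binary integers, exponential integer parts

`TS`: structures for the two-sorted language `0, 1, +, ·, ≤, | |, ∈` of bounded arithmetic (numbers
and strings). `Fm`: the `Σ^B_0` formulas of this language (only bounded number quantifiers, string
variables are free). `IsVTC0`: the axioms of `VTC⁰`. `BinRing`: the ring of binary integers of a
model. `IsExpIP`: being an exponential integer part of a real-closed exponential field.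
-/

universe u

namespace Pool.Agent.H30.VTC

/-- Structures for the two-sorted language of bounded arithmetic: a number sort and a string sort,
`0`, `1`, `+`, `·`, `≤` on numbers, the length `|X|` of a string and membership `x ∈ X`. -/
structure TS where
  Num : Type
  Str : Type
  zero : Num
  one : Num
  add : Num → Num → Num
  mul : Num → Num → Num
  le : Num → Num → Prop
  len : Str → Num
  mem : Num → Str → Prop

/-- Number terms in number variables `x_0, x_1, …` and string variables `X_0, X_1, …`. -/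
inductive NTm : Type
  | var (i : ℕ) : NTm
  | zero : NTm
  | one : NTm
  | add (s t : NTm) : NTm
  | mul (s t : NTm) : NTm
  | len (i : ℕ) : NTm

/-- `Σ^B_0` formulas: atomic formulas `s = t`, `s ≤ t`, `t ∈ X_i`, `X_i = X_j`, negation,
conjunction, and the bounded number quantifier `∀ x ≤ t` (de Bruijn indices: in the scope of the
quantifier the bound variable is `x_0`, and `x_{i+1}` is the variable that is called `x_i`
outside; the term `t` is outside of the scope). -/
inductive Fm : Type
  | eq (s t : NTm) : Fm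
  | le (s t : NTm) : Fm
  | mem (t : NTm) (i : ℕ) : Fm
  | seq (i j : ℕ) : Fm
  | neg (φ : Fm) : Fm
  | and (φ ψ : Fm) : Fm
  | all (t : NTm) (φ : Fm) : Fm

/-- the assignment `x, v 0, v 1, …` -/
def cons {α : Type} (x : α) (v : ℕ → α) : ℕ → α
  | 0 => x
  | i + 1 => v i

namespace TS

variable (M : TS)

/-- the value of a term -/
def tm (v : ℕ → M.Num) (V : ℕ → M.Str) : NTm → M.Num
  | .var i => v i
  | .zero => M.zero
  | .one => M.one
  | .add s t => M.add (tm v V s) (tm v V t)
  | .mul s t => M.mul (tm v V s) (tm v V t)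
  | .len i => M.len (V i)

/-- satisfaction of `Σ^B_0` formulas -/
def Sat (V : ℕ → M.Str) : (ℕ → M.Num) → Fm → Prop
  | v, .eq s t => M.tm v V s = M.tm v V t
  | v, .le s t => M.le (M.tm v V s) (M.tm v V t)
  | v, .mem t i => M.mem (M.tm v V t) (V i)
  | _, .seq i j => V i = V j
  | v, .neg φ => ¬ Sat V v φ
  | v, .and φ ψ => Sat V v φ ∧ Sat V v ψ
  | v, .all t φ => ∀ x, M.le x (M.tm v V t) → Sat V (cons x v) φ

/-- `x < y` -/
def lt (x y : M.Num) : Prop := M.le x y ∧ x ≠ y

/-- the pairing function `⟨x, y⟩ = (x + y) (x + y + 1) + 2 y` -/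
def pr (x y : M.Num) : M.Num :=
  M.add (M.mul (M.add x y) (M.add (M.add x y) M.one)) (M.mul (M.add M.one M.one) y)

/-- the carry into position `i` in the addition of the numbers with binary digits `A`, `B` -/
def Carry (A B : M.Num → Prop) (i : M.Num) : Prop :=
  ∃ k, M.lt k i ∧ A k ∧ B k ∧ ∀ j, M.lt k j → M.lt j i → A j ∨ B j

/-- the `i`-th digit of the sum of the numbers with binary digits `A`, `B` -/
def SumBit (A B : M.Num → Prop) (i : M.Num) : Prop :=
  Xor (Xor (A i) (B i)) (M.Carry A B i)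

/-- `X + Y = Z` as binary numbers -/
def AddG (X Y Z : M.Str) : Prop :=
  ∀ i, M.mem i Z ↔ M.SumBit (fun j => M.mem j X) (fun j => M.mem j Y) i

/-- `X ≤ Y` as binary numbers -/
def StrLe (X Y : M.Str) : Prop :=
  X = Y ∨ ∃ i, M.mem i Y ∧ ¬ M.mem i X ∧ ∀ j, M.lt i j → (M.mem j X ↔ M.mem j Y)

/-- the `i`-th row of the table coded by the string `W` -/
def row (W : M.Str) (i : M.Num) : M.Num → Prop := fun j => M.mem (M.pr i j) W

/-- the binary number `2 ^ i * Y` -/
def shift (Y : M.Str) (i : M.Num) : M.Num → Prop := fun j => ∃ k, M.add k i = j ∧ M.mem k Y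

/-- `X · Y = Z` as binary numbers: there is a table `W` of the partial sums in the school method,
`W_0 = 0`, `W_{i+1} = W_i + 2 ^ i * Y` or `W_{i+1} = W_i` according to whether `i ∈ X` or not
(`i < |X|`), and `Z = W_{|X|}`. -/
def MulG (X Y Z : M.Str) : Prop :=
  ∃ W : M.Str, (∀ j, ¬ M.row W M.zero j) ∧
    (∀ i, M.lt i (M.len X) → ∀ j, (M.row W (M.add i M.one) j ↔
      (M.mem i X ∧ M.SumBit (M.row W i) (M.shift Y i) j) ∨ (¬ M.mem i X ∧ M.row W i j))) ∧
    ∀ j, M.mem j Z ↔ M.row W (M.len X) j

end TS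

/-- `M` is a model of `VTC⁰`: the axioms 2-BASIC, comprehension for `Σ^B_0` formulas (these axiomatize
`V⁰`), the axiom NUMONES (for each `X` and `y` there is a table `Z` of the numbers of elements of
`X` below `u`, `u ≤ y`), and the totality of binary multiplication. (Over `V⁰`, each of the
last two axioms implies the other one.) -/
structure IsVTC0 (M : TS) : Prop where
  b1 : ∀ x, M.add x M.one ≠ M.zero
  b2 : ∀ x y, M.add x M.one = M.add y M.one → x = y
  b3 : ∀ x, M.add x M.zero = x
  b4 : ∀ x y, M.add x (M.add y M.one) = M.add (M.add x y) M.one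
  b5 : ∀ x, M.mul x M.zero = M.zero
  b6 : ∀ x y, M.mul x (M.add y M.one) = M.add (M.mul x y) x
  b7 : ∀ x y, M.le x y → M.le y x → x = y
  b8 : ∀ x y, M.le x (M.add x y)
  b9 : ∀ x, M.le M.zero x
  b10 : ∀ x y, M.le x y ∨ M.le y x
  b11 : ∀ x y, M.le x y ↔ M.lt x (M.add y M.one)
  b12 : ∀ x, x ≠ M.zero → ∃ y, M.le y x ∧ M.add y M.one = x
  l1 : ∀ X y, M.mem y X → M.lt y (M.len X)
  l2 : ∀ X y, M.add y M.one = M.len X → M.mem y X
  se : ∀ X Y, M.len X = M.len Y → (∀ i, M.lt i (M.len X) → (M.mem i X ↔ M.mem i Y)) → X = Y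
  comp : ∀ (φ : Fm) (V : ℕ → M.Str) (v : ℕ → M.Num) (y : M.Num),
    ∃ X, M.le (M.len X) y ∧ ∀ z, M.lt z y → (M.mem z X ↔ M.Sat V (cons z v) φ)
  numones : ∀ X y, ∃ Z, M.mem (M.pr M.zero M.zero) Z ∧
    (∀ u, M.le u y → ∃! w, M.mem (M.pr u w) Z) ∧
    ∀ u w, M.lt u y → M.mem (M.pr u w) Z →
      (M.mem u X → M.mem (M.pr (M.add u M.one) (M.add w M.one)) Z) ∧
      (¬ M.mem u X → M.mem (M.pr (M.add u M.one) w) Z)
  mult : ∀ X Y, ∃ Z, M.MulG X Y Z

/-- `R` is the ordered ring `ℤ^M` of binary integers of `M`: `val X` is the nonnegative integer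
with the binary digits `X`. (The ordered ring `R` is determined up to isomorphism by this.) -/
structure BinRing (M : TS) (R : Type) [CommRing R] [LinearOrder R] [IsStrictOrderedRing R]
    (val : M.Str → R) : Prop where
  inj : Function.Injective val
  surj : ∀ r : R, 0 ≤ r ↔ ∃ X, val X = r
  le : ∀ X Y, val X ≤ val Y ↔ M.StrLe X Y
  add : ∀ X Y Z, val X + val Y = val Z ↔ M.AddG X Y Z
  mul : ∀ X Y Z, val X * val Y = val Z ↔ M.MulG X Y Z
  discrete : ∀ r : R, 0 < r → 1 ≤ r

/-- The ordered ring `R` is isomorphic to an exponential integer part of a real-closed exponential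
field `F`, with exponential function `E` (so `E x` is `2 ^ x`) and embedding `ι : R → F`. -/
def IsExpIP (R : Type) [CommRing R] [LinearOrder R] : Prop :=
  ∃ (F : Type u) (_ : Field F) (_ : LinearOrder F) (_ : IsStrictOrderedRing F)
    (_ : IsRealClosed F) (E : F → F) (ι : R →+* F),
    -- `E` is an isomorphism of the ordered groups `(F, +, <)` and `(F_{>0}, ·, <)`, and `E 1 = 2`
    StrictMono E ∧ (∀ x y, E (x + y) = E x * E y) ∧ (∀ y, 0 < y ↔ ∃ x, E x = y) ∧ E 1 = 2 ∧
    -- the image of `R` is a discretely ordered subring and an integer part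
    StrictMono ι ∧ (∀ r : R, 0 < r → 1 ≤ r) ∧ (∀ x : F, ∃ z : R, ι z ≤ x ∧ x < ι z + 1) ∧
    -- the image of `R` is closed under `2 ^ a` for `a > 0`
    (∀ a : R, 0 < a → ∃ b : R, E (ι a) = ι b)

end Pool.Agent.H30.VTC
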