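import Pool.Agent.H30.VTC.Ext

set_option autoImplicit false

/-! The extension lemma, continued: an uncountable hull with few small elements. -/

namespace Pool.Agent.H30.VTC

open Filter Classical

/-- states of the construction -/
structure St (S : Set (ℕ → ℕ)) (G : Set U) where
  g : ℕ → ℕ
  p : ℕ → ℕ
  hg : g ∈ S
  hp : Hull S G (p : U)
  good : Good g p

/-- the family of sets given by a state -/
noncomputable def St.D {S : Set (ℕ → ℕ)} {G : Set U} (s : St S G) (i : ℕ) : Finset ℕ :=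
  dset s.g (s.p i) (2 ^ i)

/-- requirements -/
def Req (S : Set (ℕ → ℕ)) (G : Set U) : Type := S × {x : U // Hull S G x} × ℕ

/-- a requirement is satisfied on a family of sets -/
def Req.Sat {S : Set (ℕ → ℕ)} {G : Set U} (r : Req S G) (D : ℕ → Finset ℕ) : Prop :=
  (∀ i, ∀ x ∈ D i, x ≠ rep r.2.1.1 i) ∧
  ((∀ i, ∀ x ∈ D i, i ^ r.2.2 < r.1.1 (Nat.pair (rep r.2.1.1 i) x)) ∨
    ∃ w : ℕ → ℕ, Hull S G (w : U) ∧
      ∀ i, ∀ x ∈ D i, r.1.1 (Nat.pair (rep r.2.1.1 i) x) = w i)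

theorem step' {S : Set (ℕ → ℕ)} (hS : Closed S) {G : Set U} (ha : Hull S G om) (s : St S G)
    (r : Req S G) : ∃ t : St S G, (∀ i, t.D i ⊆ s.D i) ∧ r.Sat t.D := by
  obtain ⟨g', p', h1, h2, h3, h4, h5, h6⟩ := step hS ha s.g s.p s.hg s.hp s.good r.1.1 r.1.2
    (rep r.2.1.1) (by rw [rep_coe]; exact r.2.1.2) r.2.2
  exact ⟨⟨g', p', h1, h2, h3⟩, h4, h5, h6⟩

theorem extension {S : Set (ℕ → ℕ)} (hS : Closed S) (hSc : S.Countable) {G : Set U}
    (hG : G.Countable) (ha : om ∈ G) :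
    ∃ X : U, X < Germ.map (fun i => 2 ^ i) om ∧ ¬ Hull S G X ∧
      ∀ y, Hull S (insert X G) y → ∀ n : ℕ, y ≤ Germ.map (fun i => i ^ n) om → Hull S G y := by
  have hcS : Countable S := hSc.to_subtype
  have hcK : Countable {x : U // Hull S G x} := (Hull.countable hSc hG).to_subtype
  have hcR : Countable (Req S G) := by unfold Req; infer_instance
  have hne : Nonempty (Req S G) := ⟨⟨⟨_, hS.id⟩, ⟨om, .base _ ha⟩, 0⟩⟩
  obtain ⟨e, he⟩ := exists_surjective_nat (Req S G)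
  choose nx hnx1 hnx2 using step' hS (Hull.base (S := S) om ha)
  let s₀ : St S G := ⟨fun _ => 1, fun i => i, hS.one, .base _ ha, good_one _⟩
  let σ : ℕ → St S G := fun j => Nat.rec s₀ (fun j s => nx s (e j)) j
  have hσ : ∀ j, σ (j + 1) = nx (σ j) (e j) := fun j => rfl
  have hanti : ∀ i, Antitone (fun j => (σ j).D i) := by
    intro i
    refine antitone_nat_of_succ_le (fun j => ?_)
    change (σ (j + 1)).D i ⊆ (σ j).D i
    rw [hσ]
    exact hnx1 (σ j) (e j) i
  have hD0 : ∀ i, ((σ 0).D i).Nonempty := by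
    intro i
    refine ⟨0, ?_⟩
    simp [σ, s₀, St.D, dset]
  have hDne : ∀ j, ∀ᶠ i in (UU : Filter ℕ), ((σ j).D i).Nonempty := by
    intro j
    obtain ⟨c, hc⟩ := (σ j).good
    filter_upwards [hc] with i h1
    rw [← Finset.card_pos]
    by_contra h2
    have h3 : ((σ j).D i).card = 0 := by omega
    have h4 : (dset (σ j).g ((σ j).p i) (2 ^ i)).card = 0 := h3
    rw [h4] at h1
    have : 0 < 2 ^ i := by positivity
    omega
  let J : ℕ → ℕ := fun i => Nat.findGreatest (fun j => ((σ j).D i).Nonempty) i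
  have hJ : ∀ i, ((σ (J i)).D i).Nonempty := by
    intro i
    exact Nat.findGreatest_spec (P := fun j => ((σ j).D i).Nonempty) (Nat.zero_le i) (hD0 i)
  choose X hX using hJ
  have hXj : ∀ j, ∀ᶠ i in (UU : Filter ℕ), X i ∈ (σ j).D i := by
    intro j
    filter_upwards [hDne j, ev_ge (P := fun i => j ≤ i) j (fun i hi => hi)] with i h1 h2
    exact hanti i (Nat.le_findGreatest h2 h1) (hX i)
  have hsat : ∀ j, (e j).Sat (σ (j + 1)).D := fun j => by
    rw [hσ]
    exact hnx2 (σ j) (e j)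
  refine ⟨(X : U), ?_, ?_, ?_⟩
  · change _ < ((fun i => 2 ^ i : ℕ → ℕ) : U)
    rw [Germ.coe_lt]
    filter_upwards [hXj 0] with i hi
    have : X i ∈ dset (σ 0).g ((σ 0).p i) (2 ^ i) := hi
    unfold dset at this
    exact Finset.mem_range.1 (Finset.mem_filter.1 this).1
  · intro hXK
    obtain ⟨j, hj⟩ := he ⟨⟨_, hS.id⟩, ⟨(X : U), hXK⟩, 0⟩
    have h1 := (hsat j).1
    have h2 : (rep (X : U) : U) = (X : U) := rep_coe _
    rw [Germ.coe_eq] at h2
    obtain ⟨i, h3, h4⟩ := (h2.and (hXj (j + 1))).exists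
    apply h1 i (X i) h4
    rw [hj]
    exact h3.symm
  · intro y hy n hyn
    obtain ⟨f, hf, k, hk, rfl⟩ := Hull.insert hS ha hy
    obtain ⟨j, hj⟩ := he ⟨⟨f, hf⟩, ⟨k, hk⟩, n⟩
    have hyk : (prU k (X : U)).map f =
        ((fun i => f (Nat.pair (rep k i) (X i)) : ℕ → ℕ) : U) := by
      conv_lhs => rw [← rep_coe k]
      rfl
    have h1 := (hsat j).2
    rw [hj] at h1
    rcases h1 with h1 | ⟨w, hw, h1⟩
    · exfalso
      rw [hyk] at hyn
      change _ ≤ ((fun i => i ^ n : ℕ → ℕ) : U) at hyn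
      rw [Germ.coe_le] at hyn
      obtain ⟨i, h3, h4⟩ := (hyn.and (hXj (j + 1))).exists
      have h5 := h1 i (X i) h4
      have h6 : f (Nat.pair (rep k i) (X i)) ≤ i ^ n := h3
      simp only at h5
      omega
    · have h2 : (prU k (X : U)).map f = (w : U) := by
        rw [hyk, Germ.coe_eq]
        filter_upwards [hXj (j + 1)] with i h4
        exact h1 i (X i) h4
      rw [h2]
      exact hw

/-- there is an uncountable set of numbers below `2 ^ ω` whose hull contains only countably many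
numbers of the form at most `ω ^ n` -/
theorem exists_gen {S : Set (ℕ → ℕ)} (hS : Closed S) (hSc : S.Countable) :
    ∃ G : Set U, om ∈ G ∧ ¬ G.Countable ∧ (∀ x ∈ G, x < Germ.map (fun i => 2 ^ i) om) ∧
      ∀ y, Hull S G y → ∀ n : ℕ, y ≤ Germ.map (fun i => i ^ n) om → Hull S {om} y := by
  let P : Set (Set U) := {G | om ∈ G ∧ (∀ x ∈ G, x < Germ.map (fun i => 2 ^ i) om) ∧
      ∀ y, Hull S G y → ∀ n : ℕ, y ≤ Germ.map (fun i => i ^ n) om → Hull S {om} y}
  have hP0 : {om} ∈ P := by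
    refine ⟨rfl, ?_, fun y hy n _ => hy⟩
    intro x hx
    rw [Set.mem_singleton_iff.1 hx]
    change ((fun i => i : ℕ → ℕ) : U) < ((fun i => 2 ^ i : ℕ → ℕ) : U)
    rw [Germ.coe_lt]
    exact Eventually.of_forall (fun i => Nat.lt_two_pow_self)
  obtain ⟨G, hGsub, hmax⟩ := zorn_subset_nonempty P (by
    intro c hc hchain hne
    refine ⟨⋃₀ c, ⟨?_, ?_, ?_⟩, fun s hs => Set.subset_sUnion_of_mem hs⟩
    · obtain ⟨s, hs⟩ := hne
      exact ⟨s, hs, (hc hs).1⟩
    · rintro x ⟨s, hs, hx⟩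
      exact (hc hs).2.1 x hx
    · intro y hy n hyn
      obtain ⟨s, hs, h⟩ := Hull.chain hchain hy
      exact (hc hs).2.2 y h n hyn) {om} hP0
  refine ⟨G, hmax.prop.1, ?_, hmax.prop.2.1, hmax.prop.2.2⟩
  intro hGc
  obtain ⟨X, h1, h2, h3⟩ := extension hS hSc hGc hmax.prop.1
  have h4 : insert X G ∈ P := by
    refine ⟨Or.inr hmax.prop.1, ?_, ?_⟩
    · rintro x (rfl | hx)
      · exact h1
      · exact hmax.prop.2.1 x hx
    · intro y hy n hyn
      exact hmax.prop.2.2 y (h3 y hy n hyn) n hyn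
  have h5 := hmax.eq_of_subset h4 (Set.subset_insert X G)
  apply h2
  refine .base X ?_
  rw [h5]
  exact Set.mem_insert X G

end Pool.Agent.H30.VTC
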