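import Pool.Agent.H30.VTC.Std

set_option autoImplicit false

/-! The model: the cut of the numbers below some `ω ^ n` in the hull, and the strings given by
the numbers of the hull below some `2 ^ (ω ^ n)`. -/

namespace Pool.Agent.H30.VTC

open Filter Classical

/-- the closure conditions used for the model -/
structure Rich (S : Set (ℕ → ℕ)) : Prop where
  cl : Closed S
  zero : (fun _ => 0) ∈ S
  add : (fun c => c.unpair.1 + c.unpair.2) ∈ S
  mul : (fun c => c.unpair.1 * c.unpair.2) ∈ S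
  pred : (fun c => c - 1) ∈ S
  sub : (fun c => c.unpair.1 - c.unpair.2) ∈ S
  size : Nat.size ∈ S
  sk : ∀ t φ, sk t φ ∈ S
  cm : ∀ φ, cm φ ∈ S
  tdb : tdb ∈ S
  cnt : (fun c => cntf c.unpair.1 c.unpair.2) ∈ S
  numtab : numtab ∈ S
  multab : multab ∈ S
  failf : failf ∈ S
  part : (fun c => part c.unpair.1 c.unpair.2.unpair.1 c.unpair.2.unpair.2) ∈ S
  shift : (fun c => 2 ^ c.unpair.1 * c.unpair.2) ∈ S

deriving instance Countable for NTm
deriving instance Countable for Fm

theorem exists_rich : ∃ S : Set (ℕ → ℕ), S.Countable ∧ Rich S := by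
  obtain ⟨S, h1, h2, h3⟩ := exists_closed
    (({(fun _ => 0), (fun c => c.unpair.1 + c.unpair.2), (fun c => c.unpair.1 * c.unpair.2),
      (fun c => c - 1), (fun c => c.unpair.1 - c.unpair.2), Nat.size, tdb,
      (fun c => cntf c.unpair.1 c.unpair.2), numtab, multab, failf,
      (fun c => part c.unpair.1 c.unpair.2.unpair.1 c.unpair.2.unpair.2),
      (fun c => 2 ^ c.unpair.1 * c.unpair.2)} : Set (ℕ → ℕ)) ∪
      (Set.range (fun p : NTm × Fm => sk p.1 p.2) ∪ Set.range cm))
    ((Set.toFinite _).countable.union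
      ((Set.countable_range _).union (Set.countable_range _)))
  refine ⟨S, h2, ?_⟩
  constructor
  · exact h3
  · exact h1 (Or.inl (by simp))
  · exact h1 (Or.inl (by simp))
  · exact h1 (Or.inl (by simp))
  · exact h1 (Or.inl (by simp))
  · exact h1 (Or.inl (by simp))
  · exact h1 (Or.inl (by simp))
  · exact fun t φ => h1 (Or.inr (Or.inl ⟨(t, φ), rfl⟩))
  · exact fun φ => h1 (Or.inr (Or.inr ⟨φ, rfl⟩))
  · exact h1 (Or.inl (by simp))
  · exact h1 (Or.inl (by simp))
  · exact h1 (Or.inl (by simp))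
  · exact h1 (Or.inl (by simp))
  · exact h1 (Or.inl (by simp))
  · exact h1 (Or.inl (by simp))
  · exact h1 (Or.inl (by simp))

variable {S : Set (ℕ → ℕ)} {G : Set U}

theorem hmap {f : ℕ → ℕ} (hf : f ∈ S) {x : ℕ → ℕ} (hx : Hull S G (x : U)) :
    Hull S G ((fun i => f (x i) : ℕ → ℕ) : U) := by
  have := Hull.map f _ hf hx
  simpa [Germ.map_coe, Function.comp_def] using this

theorem hpair {x y : ℕ → ℕ} (hx : Hull S G (x : U)) (hy : Hull S G (y : U)) :
    Hull S G ((fun i => Nat.pair (x i) (y i) : ℕ → ℕ) : U) := by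
  have := Hull.pair _ _ hx hy
  simpa [prU, Germ.map₂_coe] using this

theorem eq_iff_ev {x y : U} : x = y ↔ ∀ᶠ i in (UU : Filter ℕ), rep x i = rep y i := by
  conv_lhs => rw [← rep_coe x, ← rep_coe y]
  exact Germ.coe_eq

theorem ne_iff_ev {x y : U} : x ≠ y ↔ ∀ᶠ i in (UU : Filter ℕ), rep x i ≠ rep y i := by
  rw [Ne, eq_iff_ev, ← Ultrafilter.eventually_not]

theorem rep_mk (f : ℕ → ℕ) : ∀ᶠ i in (UU : Filter ℕ), rep (f : U) i = f i :=
  Germ.coe_eq.1 (rep_coe _)

/-- the numbers of the model -/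
def NumP (S : Set (ℕ → ℕ)) (G : Set U) (x : U) : Prop :=
  Hull S G x ∧ ∃ n : ℕ, ∀ᶠ i in (UU : Filter ℕ), rep x i ≤ i ^ n

/-- the strings of the model -/
def StrP (S : Set (ℕ → ℕ)) (G : Set U) (X : U) : Prop :=
  Hull S G X ∧ ∃ n : ℕ, ∀ᶠ i in (UU : Filter ℕ), rep X i < 2 ^ (i ^ n)

theorem numP_mk {f : ℕ → ℕ} (hf : Hull S G (f : U)) (n : ℕ)
    (h : ∀ᶠ i in (UU : Filter ℕ), f i ≤ i ^ n) : NumP S G (f : U) := by
  refine ⟨hf, n, ?_⟩
  filter_upwards [h, rep_mk f] with i h1 h2
  rw [h2]; exact h1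

theorem strP_mk {f : ℕ → ℕ} (hf : Hull S G (f : U)) (n : ℕ)
    (h : ∀ᶠ i in (UU : Filter ℕ), f i < 2 ^ (i ^ n)) : StrP S G (f : U) := by
  refine ⟨hf, n, ?_⟩
  filter_upwards [h, rep_mk f] with i h1 h2
  rw [h2]; exact h1

theorem ev_two : ∀ᶠ i in (UU : Filter ℕ), 2 ≤ i := ev_ge (P := fun i => 2 ≤ i) 2 (fun i hi => hi)

theorem hull_rep {x : U} (hx : Hull S G x) : Hull S G ((rep x : ℕ → ℕ) : U) := by
  rw [rep_coe]; exact hx

theorem hull_const (hS : Rich S) (hG : om ∈ G) : Hull S G ((fun _ => 0 : ℕ → ℕ) : U) := by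
  have h : Hull S G ((fun i => i : ℕ → ℕ) : U) := .base _ hG
  exact hmap hS.zero h

theorem hull_one (hS : Rich S) (hG : om ∈ G) : Hull S G ((fun _ => 1 : ℕ → ℕ) : U) := by
  have h : Hull S G ((fun i => i : ℕ → ℕ) : U) := .base _ hG
  exact hmap hS.cl.one h

theorem hull_add (hS : Rich S) {x y : ℕ → ℕ} (hx : Hull S G (x : U)) (hy : Hull S G (y : U)) :
    Hull S G ((fun i => x i + y i : ℕ → ℕ) : U) := by
  have := hmap hS.add (hpair hx hy)
  simpa using this

theorem hull_mul (hS : Rich S) {x y : ℕ → ℕ} (hx : Hull S G (x : U)) (hy : Hull S G (y : U)) :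
    Hull S G ((fun i => x i * y i : ℕ → ℕ) : U) := by
  have := hmap hS.mul (hpair hx hy)
  simpa using this

theorem hull_sub (hS : Rich S) {x y : ℕ → ℕ} (hx : Hull S G (x : U)) (hy : Hull S G (y : U)) :
    Hull S G ((fun i => x i - y i : ℕ → ℕ) : U) := by
  have := hmap hS.sub (hpair hx hy)
  simpa using this

theorem pow_add_pow_le {i n m : ℕ} (hi : 2 ≤ i) : i ^ n + i ^ m ≤ i ^ (n + m + 1) := by
  have h1 : i ^ n ≤ i ^ (n + m) := Nat.pow_le_pow_right (by omega) (by omega)
  have h2 : i ^ m ≤ i ^ (n + m) := Nat.pow_le_pow_right (by omega) (by omega)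
  calc i ^ n + i ^ m ≤ i ^ (n + m) * 2 := by omega
    _ ≤ i ^ (n + m) * i := Nat.mul_le_mul_left _ hi
    _ = i ^ (n + m + 1) := by ring

theorem numP_add (hS : Rich S) {x y : U} (hx : NumP S G x) (hy : NumP S G y) :
    NumP S G ((fun i => rep x i + rep y i : ℕ → ℕ) : U) := by
  obtain ⟨hx, n, hn⟩ := hx
  obtain ⟨hy, m, hm⟩ := hy
  refine numP_mk (hull_add hS (hull_rep hx) (hull_rep hy)) (n + m + 1) ?_
  filter_upwards [hn, hm, ev_two] with i h1 h2 h3
  exact (add_le_add h1 h2).trans (pow_add_pow_le h3)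

theorem numP_mul (hS : Rich S) {x y : U} (hx : NumP S G x) (hy : NumP S G y) :
    NumP S G ((fun i => rep x i * rep y i : ℕ → ℕ) : U) := by
  obtain ⟨hx, n, hn⟩ := hx
  obtain ⟨hy, m, hm⟩ := hy
  refine numP_mk (hull_mul hS (hull_rep hx) (hull_rep hy)) (n + m) ?_
  filter_upwards [hn, hm] with i h1 h2
  rw [pow_add]
  exact Nat.mul_le_mul h1 h2

theorem numP_len (hS : Rich S) {X : U} (hX : StrP S G X) :
    NumP S G ((fun i => Nat.size (rep X i) : ℕ → ℕ) : U) := by
  obtain ⟨hX, n, hn⟩ := hX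
  refine numP_mk (hmap hS.size (hull_rep hX)) n ?_
  filter_upwards [hn] with i h1
  exact size_le_of_lt h1

/-- the model -/
noncomputable def Mod (hS : Rich S) (hG : om ∈ G) : TS where
  Num := {x : U // NumP S G x}
  Str := {X : U // StrP S G X}
  zero := ⟨((fun _ => 0 : ℕ → ℕ) : U),
    numP_mk (hull_const hS hG) 0 (Eventually.of_forall (fun i => by simp))⟩
  one := ⟨((fun _ => 1 : ℕ → ℕ) : U),
    numP_mk (hull_one hS hG) 0 (Eventually.of_forall (fun i => by simp))⟩
  add x y := ⟨((fun i => rep x.1 i + rep y.1 i : ℕ → ℕ) : U), numP_add hS x.2 y.2⟩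
  mul x y := ⟨((fun i => rep x.1 i * rep y.1 i : ℕ → ℕ) : U), numP_mul hS x.2 y.2⟩
  le x y := ∀ᶠ i in (UU : Filter ℕ), rep x.1 i ≤ rep y.1 i
  len X := ⟨((fun i => Nat.size (rep X.1 i) : ℕ → ℕ) : U), numP_len hS X.2⟩
  mem x X := ∀ᶠ i in (UU : Filter ℕ), (rep X.1 i).testBit (rep x.1 i) = true

section
variable (hS : Rich S) (hG : om ∈ G)

theorem r_zero : ∀ᶠ i in (UU : Filter ℕ), rep (Mod hS hG).zero.1 i = 0 := rep_mk _

theorem r_one : ∀ᶠ i in (UU : Filter ℕ), rep (Mod hS hG).one.1 i = 1 := rep_mk _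

theorem r_add (x y : (Mod hS hG).Num) : ∀ᶠ i in (UU : Filter ℕ),
    rep ((Mod hS hG).add x y).1 i = rep x.1 i + rep y.1 i := rep_mk _

theorem r_mul (x y : (Mod hS hG).Num) : ∀ᶠ i in (UU : Filter ℕ),
    rep ((Mod hS hG).mul x y).1 i = rep x.1 i * rep y.1 i := rep_mk _

theorem r_len (X : (Mod hS hG).Str) : ∀ᶠ i in (UU : Filter ℕ),
    rep ((Mod hS hG).len X).1 i = Nat.size (rep X.1 i) := rep_mk _

theorem num_eq (x y : (Mod hS hG).Num) : x = y ↔
    ∀ᶠ i in (UU : Filter ℕ), rep x.1 i = rep y.1 i := by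
  rw [← eq_iff_ev]
  exact Subtype.ext_iff

theorem num_ne (x y : (Mod hS hG).Num) : x ≠ y ↔
    ∀ᶠ i in (UU : Filter ℕ), rep x.1 i ≠ rep y.1 i := by
  rw [← ne_iff_ev]
  exact not_congr Subtype.ext_iff

theorem str_eq (x y : (Mod hS hG).Str) : x = y ↔
    ∀ᶠ i in (UU : Filter ℕ), rep x.1 i = rep y.1 i := by
  rw [← eq_iff_ev]
  exact Subtype.ext_iff

theorem str_ne (x y : (Mod hS hG).Str) : x ≠ y ↔
    ∀ᶠ i in (UU : Filter ℕ), rep x.1 i ≠ rep y.1 i := by
  rw [← ne_iff_ev]
  exact not_congr Subtype.ext_iff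

theorem mod_lt (x y : (Mod hS hG).Num) : (Mod hS hG).lt x y ↔
    ∀ᶠ i in (UU : Filter ℕ), rep x.1 i < rep y.1 i := by
  unfold TS.lt
  rw [num_ne]
  constructor
  · rintro ⟨h1, h2⟩
    have h1' : ∀ᶠ i in (UU : Filter ℕ), rep x.1 i ≤ rep y.1 i := h1
    filter_upwards [h1', h2] with i h3 h4
    exact lt_of_le_of_ne h3 h4
  · intro h
    refine ⟨?_, ?_⟩
    · change ∀ᶠ i in (UU : Filter ℕ), rep x.1 i ≤ rep y.1 i
      filter_upwards [h] with i h3 using h3.le
    · filter_upwards [h] with i h3 using h3.ne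

include hS hG in
theorem hull_enc (N : ℕ) : ∀ (v : ℕ → U), (∀ j, Hull S G (v j)) →
    Hull S G ((fun i => enc (fun j => rep (v j) i) N : ℕ → ℕ) : U) := by
  induction N with
  | zero =>
    intro v _
    exact hull_const hS hG
  | succ N ih =>
    intro v hv
    exact hpair (hull_rep (hv 0)) (ih (fun j => v (j + 1)) (fun j => hv (j + 1)))

theorem los_tm (v : ℕ → (Mod hS hG).Num) (V : ℕ → (Mod hS hG).Str) (t : NTm) :
    ∀ᶠ i in (UU : Filter ℕ), rep ((Mod hS hG).tm v V t).1 i =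
      N0.tm (fun j => rep (v j).1 i) (fun j => rep (V j).1 i) t := by
  induction t with
  | var j => exact Eventually.of_forall (fun i => rfl)
  | zero => exact r_zero hS hG
  | one => exact r_one hS hG
  | add s t ih1 ih2 =>
    filter_upwards [ih1, ih2, r_add hS hG ((Mod hS hG).tm v V s) ((Mod hS hG).tm v V t)]
      with i h1 h2 h3
    simp only [TS.tm]
    rw [h3, h1, h2]
  | mul s t ih1 ih2 =>
    filter_upwards [ih1, ih2, r_mul hS hG ((Mod hS hG).tm v V s) ((Mod hS hG).tm v V t)]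
      with i h1 h2 h3
    simp only [TS.tm]
    rw [h3, h1, h2]
  | len j => exact r_len hS hG (V j)

theorem rep_cons (x : (Mod hS hG).Num) (v : ℕ → (Mod hS hG).Num) (i : ℕ) :
    (fun j => rep (cons x v j).1 i) = cons (rep x.1 i) (fun j => rep (v j).1 i) := by
  funext j
  cases j <;> rfl

/-- satisfaction of `Σ^B_0` formulas is evaluated coordinatewise -/
theorem los (φ : Fm) (V : ℕ → (Mod hS hG).Str) : ∀ (v : ℕ → (Mod hS hG).Num),
    ((Mod hS hG).Sat V v φ ↔ ∀ᶠ i in (UU : Filter ℕ),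
      N0.Sat (fun j => rep (V j).1 i) (fun j => rep (v j).1 i) φ) := by
  induction φ with
  | eq s t =>
    intro v
    simp only [TS.Sat]
    rw [num_eq]
    refine eventually_congr ?_
    filter_upwards [los_tm hS hG v V s, los_tm hS hG v V t] with i h1 h2
    rw [h1, h2]
  | le s t =>
    intro v
    simp only [TS.Sat]
    change (∀ᶠ i in (UU : Filter ℕ), rep _ i ≤ rep _ i) ↔ _
    refine eventually_congr ?_
    filter_upwards [los_tm hS hG v V s, los_tm hS hG v V t] with i h1 h2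
    rw [h1, h2]
  | mem t j =>
    intro v
    simp only [TS.Sat]
    change (∀ᶠ i in (UU : Filter ℕ), (rep _ i).testBit (rep _ i) = true) ↔ _
    refine eventually_congr ?_
    filter_upwards [los_tm hS hG v V t] with i h1
    rw [h1]
  | seq j k =>
    intro v
    simp only [TS.Sat]
    rw [str_eq]
  | neg φ ih =>
    intro v
    simp only [TS.Sat]
    rw [ih, ← Ultrafilter.eventually_not]
  | and φ ψ ih1 ih2 =>
    intro v
    simp only [TS.Sat]
    rw [ih1, ih2, ← eventually_and]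
  | all t φ ih =>
    intro v
    simp only [TS.Sat]
    constructor
    · intro h
      by_contra hcon
      rw [← Ultrafilter.eventually_not] at hcon
      set N := max t.bd φ.bd with hN
      set a : ℕ → ℕ := fun i => enc (fun j => rep (v j).1 i) N with ha
      set b : ℕ → ℕ := fun i => enc (fun j => rep (V j).1 i) N with hb
      have hw : Hull S G ((fun i => sk t φ (Nat.pair (a i) (b i)) : ℕ → ℕ) : U) :=
        hmap (hS.sk t φ) (hpair
          (hull_enc hS hG N (fun j => (v j).1) (fun j => (v j).2.1))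
          (hull_enc hS hG N (fun j => (V j).1) (fun j => (V j).2.1)))
      have htm : ∀ i, N0.tm (nth (a i)) (nth (b i)) t =
          N0.tm (fun j => rep (v j).1 i) (fun j => rep (V j).1 i) t := by
        intro i
        refine tm_congr N0 t (fun j hj => ?_) (fun j hj => ?_)
        · exact nth_enc N _ j (lt_of_lt_of_le hj (le_max_left _ _))
        · exact nth_enc N _ j (lt_of_lt_of_le hj (le_max_left _ _))
      have hsat : ∀ i x, N0.Sat (nth (b i)) (cons x (nth (a i))) φ ↔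
          N0.Sat (fun j => rep (V j).1 i) (cons x (fun j => rep (v j).1 i)) φ := by
        intro i x
        refine sat_congr N0 φ (fun j hj => ?_) (fun j hj => ?_)
        · cases j with
          | zero => rfl
          | succ j => exact nth_enc N _ j (lt_of_lt_of_le (by omega) (le_max_right t.bd φ.bd))
        · exact nth_enc N _ j (lt_of_lt_of_le hj (le_max_right _ _))
      have hsp : ∀ᶠ i in (UU : Filter ℕ), sk t φ (Nat.pair (a i) (b i)) ≤
          N0.tm (fun j => rep (v j).1 i) (fun j => rep (V j).1 i) t ∧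
          ¬ N0.Sat (fun j => rep (V j).1 i)
            (cons (sk t φ (Nat.pair (a i) (b i))) (fun j => rep (v j).1 i)) φ := by
        filter_upwards [hcon] with i h1
        push Not at h1
        obtain ⟨x, hx1, hx2⟩ := h1
        have h3 := sk_spec t φ (a i) (b i) ⟨x, by rw [htm]; exact hx1, by rw [hsat]; exact hx2⟩
        rw [htm, hsat] at h3
        exact h3
      obtain ⟨n, hn⟩ := ((Mod hS hG).tm v V t).2.2
      let x : (Mod hS hG).Num := ⟨((fun i => sk t φ (Nat.pair (a i) (b i)) : ℕ → ℕ) : U),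
        numP_mk hw n (by
          filter_upwards [hsp, hn, los_tm hS hG v V t] with i h1 h2 h3
          rw [h3] at h2
          exact h1.1.trans h2)⟩
      have hx : ∀ᶠ i in (UU : Filter ℕ), rep x.1 i = sk t φ (Nat.pair (a i) (b i)) := rep_mk _
      have h1 := h x (by
        change ∀ᶠ i in (UU : Filter ℕ), rep x.1 i ≤ rep _ i
        filter_upwards [hx, hsp, los_tm hS hG v V t] with i h1 h2 h3
        rw [h1, h3]
        exact h2.1)
      rw [ih] at h1
      obtain ⟨i, h2, h3, h4⟩ := (h1.and (hx.and hsp)).exists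
      rw [rep_cons, h3] at h2
      exact h4.2 h2
    · intro h x hx
      rw [ih]
      have hx' : ∀ᶠ i in (UU : Filter ℕ), rep x.1 i ≤ rep ((Mod hS hG).tm v V t).1 i := hx
      filter_upwards [h, hx', los_tm hS hG v V t] with i h1 h2 h3
      rw [rep_cons]
      refine h1 _ ?_
      rw [h3] at h2
      exact h2

/-- comprehension -/
theorem mod_comp (φ : Fm) (V : ℕ → (Mod hS hG).Str) (v : ℕ → (Mod hS hG).Num)
    (y : (Mod hS hG).Num) : ∃ X, (Mod hS hG).le ((Mod hS hG).len X) y ∧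
      ∀ z, (Mod hS hG).lt z y → ((Mod hS hG).mem z X ↔ (Mod hS hG).Sat V (cons z v) φ) := by
  set N := φ.bd with hN
  set a : ℕ → ℕ := fun i => enc (fun j => rep (v j).1 i) N with ha
  set b : ℕ → ℕ := fun i => enc (fun j => rep (V j).1 i) N with hb
  have hw : Hull S G ((fun i => cm φ (Nat.pair (rep y.1 i) (Nat.pair (a i) (b i))) : ℕ → ℕ) : U) :=
    hmap (hS.cm φ) (hpair (hull_rep y.2.1) (hpair
      (hull_enc hS hG N (fun j => (v j).1) (fun j => (v j).2.1))
      (hull_enc hS hG N (fun j => (V j).1) (fun j => (V j).2.1))))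
  obtain ⟨n, hn⟩ := y.2.2
  let X : (Mod hS hG).Str := ⟨((fun i => cm φ (Nat.pair (rep y.1 i) (Nat.pair (a i) (b i))) :
    ℕ → ℕ) : U), strP_mk hw n (by
      filter_upwards [hn] with i h1
      exact lt_of_lt_of_le (cm_lt φ _ _ _) (Nat.pow_le_pow_right (by norm_num) h1))⟩
  have hX : ∀ᶠ i in (UU : Filter ℕ), rep X.1 i =
    cm φ (Nat.pair (rep y.1 i) (Nat.pair (a i) (b i))) := rep_mk _
  refine ⟨X, ?_, ?_⟩
  · change ∀ᶠ i in (UU : Filter ℕ), rep _ i ≤ rep _ i
    filter_upwards [hX, r_len hS hG X] with i h1 h2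
    rw [h2, h1]
    exact size_le_of_lt (cm_lt φ _ _ _)
  · intro z hz
    rw [mod_lt] at hz
    rw [los]
    change (∀ᶠ i in (UU : Filter ℕ), (rep X.1 i).testBit (rep z.1 i) = true) ↔ _
    refine eventually_congr ?_
    filter_upwards [hX, hz] with i h1 h2
    rw [h1, cm_spec, rep_cons]
    constructor
    · rintro ⟨_, h3⟩
      refine (sat_congr N0 φ (fun j hj => ?_) (fun j hj => ?_)).1 h3
      · cases j with
        | zero => rfl
        | succ j => exact nth_enc N _ j (by omega)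
      · exact nth_enc N _ j hj
    · intro h3
      refine ⟨h2, (sat_congr N0 φ (fun j hj => ?_) (fun j hj => ?_)).2 h3⟩
      · cases j with
        | zero => rfl
        | succ j => exact nth_enc N _ j (by omega)
      · exact nth_enc N _ j hj

end

end Pool.Agent.H30.VTC
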