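import Pool.Agent.H30.VTC.Ax

set_option autoImplicit false

/-! Addition and multiplication of binary numbers in the model; the model satisfies `VTC⁰`. -/

namespace Pool.Agent.H30.VTC

open Filter Classical

variable {S : Set (ℕ → ℕ)} {G : Set U} (hS : Rich S) (hG : om ∈ G)

theorem hull_part {x y z : ℕ → ℕ} (hS : Rich S) (hx : Hull S G (x : U)) (hy : Hull S G (y : U))
    (hz : Hull S G (z : U)) : Hull S G ((fun i => part (x i) (y i) (z i) : ℕ → ℕ) : U) := by
  have := hmap hS.part (hpair hx (hpair hy hz))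
  simpa using this

theorem hull_shift {x y : ℕ → ℕ} (hS : Rich S) (hx : Hull S G (x : U)) (hy : Hull S G (y : U)) :
    Hull S G ((fun i => 2 ^ (x i) * y i : ℕ → ℕ) : U) := by
  have := hmap hS.shift (hpair hx hy)
  simpa using this

/-- sum of strings -/
theorem exists_add (X Y : (Mod hS hG).Str) : ∃ Z : (Mod hS hG).Str,
    ∀ᶠ n in (UU : Filter ℕ), rep Z.1 n = rep X.1 n + rep Y.1 n := by
  obtain ⟨hX, a, ha⟩ := X.2
  obtain ⟨hY, b, hb⟩ := Y.2
  have hbd : ∀ᶠ n in (UU : Filter ℕ), rep X.1 n + rep Y.1 n < 2 ^ (n ^ (a + b + 1)) := by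
    filter_upwards [ha, hb, ev_two] with n h1 h2 h3
    have h4 : n ^ a + n ^ b ≤ n ^ (a + b + 1) := pow_add_pow_le h3
    have h5 : 1 ≤ n ^ a := Nat.one_le_pow _ _ (by omega)
    have h6 : 1 ≤ n ^ b := Nat.one_le_pow _ _ (by omega)
    have h7 : 2 ^ (n ^ a) ≤ 2 ^ (n ^ (a + b + 1) - 1) := Nat.pow_le_pow_right (by norm_num) (by omega)
    have h8 : 2 ^ (n ^ b) ≤ 2 ^ (n ^ (a + b + 1) - 1) := Nat.pow_le_pow_right (by norm_num) (by omega)
    have h9 : 2 ^ (n ^ (a + b + 1)) = 2 ^ (n ^ (a + b + 1) - 1) * 2 := by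
      rw [← pow_succ]
      congr 1
      omega
    omega
  exact ⟨mkS hS hG _ (hull_add hS (hull_rep hX) (hull_rep hY)) _ hbd, rep_mkS hS hG _ _ _ _⟩

/-- product of strings -/
theorem exists_mul (X Y : (Mod hS hG).Str) : ∃ Z : (Mod hS hG).Str,
    ∀ᶠ n in (UU : Filter ℕ), rep Z.1 n = rep X.1 n * rep Y.1 n := by
  obtain ⟨hX, a, ha⟩ := X.2
  obtain ⟨hY, b, hb⟩ := Y.2
  have hbd : ∀ᶠ n in (UU : Filter ℕ), rep X.1 n * rep Y.1 n < 2 ^ (n ^ (a + b + 1)) := by
    filter_upwards [ha, hb, ev_two] with n h1 h2 h3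
    exact lt_of_lt_of_le (lt_two_pow_of_mul h1 h2)
      (Nat.pow_le_pow_right (by norm_num) (pow_add_pow_le h3))
  exact ⟨mkS hS hG _ (hull_mul hS (hull_rep hX) (hull_rep hY)) _ hbd, rep_mkS hS hG _ _ _ _⟩

/-- difference of strings -/
theorem exists_sub (X Y : (Mod hS hG).Str) : ∃ Z : (Mod hS hG).Str,
    ∀ᶠ n in (UU : Filter ℕ), rep Z.1 n = rep X.1 n - rep Y.1 n := by
  obtain ⟨hX, a, ha⟩ := X.2
  obtain ⟨hY, b, hb⟩ := Y.2
  have hbd : ∀ᶠ n in (UU : Filter ℕ), rep X.1 n - rep Y.1 n < 2 ^ (n ^ a) := by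
    filter_upwards [ha] with n h1
    omega
  exact ⟨mkS hS hG _ (hull_sub hS (hull_rep hX) (hull_rep hY)) _ hbd, rep_mkS hS hG _ _ _ _⟩

/-- partial products -/
theorem exists_part (X Y : (Mod hS hG).Str) (i : (Mod hS hG).Num) : ∃ Z : (Mod hS hG).Str,
    ∀ᶠ n in (UU : Filter ℕ), rep Z.1 n = part (rep Y.1 n) (rep X.1 n) (rep i.1 n) := by
  obtain ⟨hX, a, ha⟩ := X.2
  obtain ⟨hY, b, hb⟩ := Y.2
  have hbd : ∀ᶠ n in (UU : Filter ℕ), part (rep Y.1 n) (rep X.1 n) (rep i.1 n) <
      2 ^ (n ^ (a + b + 1)) := by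
    filter_upwards [ha, hb, ev_two] with n h1 h2 h3
    refine lt_of_lt_of_le (part_lt _ _ _) (Nat.pow_le_pow_right (by norm_num) ?_)
    have := size_le_of_lt h1
    have := size_le_of_lt h2
    have := pow_add_pow_le (i := n) (n := a) (m := b) h3
    omega
  exact ⟨mkS hS hG _ (hull_part hS (hull_rep hY) (hull_rep hX) (hull_rep i.2.1)) _ hbd,
    rep_mkS hS hG _ _ _ _⟩

/-- shifts -/
theorem exists_shift (Y : (Mod hS hG).Str) (i : (Mod hS hG).Num) : ∃ Z : (Mod hS hG).Str,
    ∀ᶠ n in (UU : Filter ℕ), rep Z.1 n = 2 ^ (rep i.1 n) * rep Y.1 n := by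
  obtain ⟨hi, a, ha⟩ := i.2
  obtain ⟨hY, b, hb⟩ := Y.2
  have hbd : ∀ᶠ n in (UU : Filter ℕ), 2 ^ (rep i.1 n) * rep Y.1 n < 2 ^ (n ^ (a + b + 1)) := by
    filter_upwards [ha, hb, ev_two] with n h1 h2 h3
    calc 2 ^ (rep i.1 n) * rep Y.1 n < 2 ^ (rep i.1 n) * 2 ^ (n ^ b) :=
          Nat.mul_lt_mul_of_pos_left h2 (by positivity)
      _ = 2 ^ (rep i.1 n + n ^ b) := by rw [pow_add]
      _ ≤ 2 ^ (n ^ (a + b + 1)) := Nat.pow_le_pow_right (by norm_num)
          ((Nat.add_le_add_right h1 _).trans (pow_add_pow_le h3))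
  exact ⟨mkS hS hG _ (hull_shift hS (hull_rep hi) (hull_rep hY)) _ hbd, rep_mkS hS hG _ _ _ _⟩

theorem shift_iff {Y Z : (Mod hS hG).Str} {i : (Mod hS hG).Num}
    (hZ : ∀ᶠ n in (UU : Filter ℕ), rep Z.1 n = 2 ^ (rep i.1 n) * rep Y.1 n) :
    (Mod hS hG).shift Y i = fun j => (Mod hS hG).mem j Z := by
  funext j
  apply propext
  unfold TS.shift
  rw [mod_mem]
  constructor
  · rintro ⟨k, hk, hm⟩
    rw [mod_mem] at hm
    subst hk
    filter_upwards [hm, hZ, r_add hS hG k i] with n h1 h2 h3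
    rw [h2, h3, Nat.testBit_two_pow_mul]
    simp [h1]
  · intro h
    obtain ⟨hj, a, ha⟩ := j.2
    have hkb : ∀ᶠ n in (UU : Filter ℕ), rep j.1 n - rep i.1 n ≤ n ^ a := by
      filter_upwards [ha] with n h1
      omega
    have hk := rep_mkN hS hG _ (hull_sub hS (hull_rep hj) (hull_rep i.2.1)) a hkb
    refine ⟨mkN hS hG _ (hull_sub hS (hull_rep hj) (hull_rep i.2.1)) a hkb, ?_, ?_⟩
    · rw [num_eq]
      filter_upwards [h, hZ, hk, r_add hS hG
        (mkN hS hG _ (hull_sub hS (hull_rep hj) (hull_rep i.2.1)) a hkb) i] with n h1 h2 h3 h4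
      rw [h4, h3]
      rw [h2, Nat.testBit_two_pow_mul] at h1
      simp only [ge_iff_le, Bool.and_eq_true, decide_eq_true_eq] at h1
      omega
    · rw [mod_mem]
      filter_upwards [h, hZ, hk] with n h1 h2 h3
      rw [h3]
      rw [h2, Nat.testBit_two_pow_mul] at h1
      simp only [ge_iff_le, Bool.and_eq_true, decide_eq_true_eq] at h1
      exact h1.2

theorem sum_congr_of {a b z : (Mod hS hG).Str} (j : (Mod hS hG).Num)
    (hz : ∀ᶠ n in (UU : Filter ℕ), rep z.1 n = rep a.1 n + rep b.1 n) :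
    (Mod hS hG).SumBit (fun j => (Mod hS hG).mem j a) (fun j => (Mod hS hG).mem j b) j ↔
      (Mod hS hG).mem j z := by
  rw [mod_sumBit, mod_mem]
  refine eventually_congr ?_
  filter_upwards [hz] with n h1
  rw [h1]

/-- the graph of addition in the model -/
theorem addG_iff (X Y Z : (Mod hS hG).Str) : (Mod hS hG).AddG X Y Z ↔
    ∀ᶠ n in (UU : Filter ℕ), rep Z.1 n = rep X.1 n + rep Y.1 n := by
  obtain ⟨W, hW⟩ := exists_add hS hG X Y
  have h1 : (Mod hS hG).AddG X Y Z ↔ Z = W := by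
    unfold TS.AddG
    constructor
    · intro h
      refine str_ext hS hG (fun j => ?_)
      rw [h j, sum_congr_of hS hG j hW]
    · rintro rfl j
      rw [sum_congr_of hS hG j hW]
  rw [h1, str_eq]
  refine eventually_congr ?_
  filter_upwards [hW] with n h2
  rw [h2]

/-- recursion for the partial products -/
theorem part_rec {X Y P P' T : (Mod hS hG).Str} {i : (Mod hS hG).Num} (j : (Mod hS hG).Num)
    (hP : ∀ᶠ n in (UU : Filter ℕ), rep P.1 n = part (rep Y.1 n) (rep X.1 n) (rep i.1 n))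
    (hP' : ∀ᶠ n in (UU : Filter ℕ), rep P'.1 n = part (rep Y.1 n) (rep X.1 n) (rep i.1 n + 1))
    (hT : ∀ᶠ n in (UU : Filter ℕ), rep T.1 n = 2 ^ (rep i.1 n) * rep Y.1 n) :
    (Mod hS hG).mem j P' ↔ ((Mod hS hG).mem i X ∧ (Mod hS hG).SumBit
      (fun j => (Mod hS hG).mem j P) (fun j => (Mod hS hG).mem j T) j) ∨
      (¬ (Mod hS hG).mem i X ∧ (Mod hS hG).mem j P) := by
  by_cases hm : (Mod hS hG).mem i X
  · simp only [hm, true_and, not_true_eq_false, false_and, or_false]
    rw [mod_sumBit, mod_mem]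
    rw [mod_mem] at hm
    refine eventually_congr ?_
    filter_upwards [hP, hP', hT, hm] with n h1 h2 h3 h4
    rw [h2, part_succ, if_pos h4, h1, h3]
  · simp only [hm, false_and, not_false_eq_true, true_and, false_or]
    rw [mod_mem, mod_mem]
    rw [mod_mem, ← Ultrafilter.eventually_not] at hm
    refine eventually_congr ?_
    filter_upwards [hP, hP', hT, hm] with n h1 h2 h3 h4
    rw [h2, part_succ, if_neg h4, h1]

/-- the product has a computation table -/
theorem mulG_of {X Y Z : (Mod hS hG).Str}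
    (hZ : ∀ᶠ n in (UU : Filter ℕ), rep Z.1 n = rep X.1 n * rep Y.1 n) :
    (Mod hS hG).MulG X Y Z := by
  obtain ⟨hX, a, ha⟩ := X.2
  obtain ⟨hY, b, hb⟩ := Y.2
  have hWb : ∀ᶠ n in (UU : Filter ℕ), multab (Nat.pair (rep X.1 n) (rep Y.1 n)) <
      2 ^ (n ^ (2 * (a + (a + b + 1)) + 6)) := by
    filter_upwards [ha, hb, ev_two] with n h1 h2 h3
    refine lt_of_lt_of_le (multab_lt _ _) (Nat.pow_le_pow_right (by norm_num) ?_)
    have h4 := size_le_of_lt h1
    have h5 := size_le_of_lt h2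
    have h6 := pow_add_pow_le (i := n) (n := a) (m := b) h3
    exact prn_le_pow h3 h4 (by omega)
  have hWr := rep_mkS hS hG _ (hmap hS.multab (hpair (hull_rep hX) (hull_rep hY))) _ hWb
  set W := mkS hS hG _ (hmap hS.multab (hpair (hull_rep hX) (hull_rep hY))) _ hWb with hW
  have hrow : ∀ (i : (Mod hS hG).Num) (P : (Mod hS hG).Str),
      (Mod hS hG).le i ((Mod hS hG).len X) →
      (∀ᶠ n in (UU : Filter ℕ), rep P.1 n = part (rep Y.1 n) (rep X.1 n) (rep i.1 n)) →
      (Mod hS hG).row W i = fun j => (Mod hS hG).mem j P := by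
    intro i P hi hP
    rw [mod_le] at hi
    funext j
    apply propext
    unfold TS.row
    rw [mod_mem, mod_mem]
    refine eventually_congr ?_
    filter_upwards [hi, hP, hWr, r_pr hS hG i j, r_len hS hG X] with n h1 h2 h3 h4 h5
    rw [h4, h3, h2]
    rw [h5] at h1
    exact multab_spec h1
  refine ⟨W, ?_, ?_, ?_⟩
  · intro j
    obtain ⟨P, hP⟩ := exists_part hS hG X Y (Mod hS hG).zero
    rw [hrow _ P (by
      rw [mod_le]
      filter_upwards [r_zero hS hG] with n h1
      rw [h1]; omega) hP]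
    beta_reduce
    rw [mod_mem, ← Ultrafilter.eventually_not]
    filter_upwards [hP, r_zero hS hG] with n h1 h2
    rw [h1, h2]
    simp [part, Nat.mod_one]
  · intro i hi j
    obtain ⟨P, hP⟩ := exists_part hS hG X Y i
    obtain ⟨P', hP'⟩ := exists_part hS hG X Y ((Mod hS hG).add i (Mod hS hG).one)
    obtain ⟨T, hT⟩ := exists_shift hS hG Y i
    rw [mod_lt] at hi
    rw [hrow i P (by
      rw [mod_le]
      filter_upwards [hi] with n h1 using h1.le) hP, hrow _ P' (by
        rw [mod_le]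
        filter_upwards [hi, r_add hS hG i (Mod hS hG).one, r_one hS hG] with n h1 h2 h3
        rw [h2, h3]
        omega) hP', shift_iff hS hG hT]
    refine part_rec hS hG j hP ?_ hT
    filter_upwards [hP', r_add hS hG i (Mod hS hG).one, r_one hS hG] with n h1 h2 h3
    rw [h1, h2, h3]
  · intro j
    rw [hrow _ Z (by
      rw [mod_le]
      exact Eventually.of_forall (fun n => le_rfl)) (by
      filter_upwards [hZ, r_len hS hG X] with n h1 h2
      rw [h1, h2, part_size, mul_comm])]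

theorem le_prn (i j : ℕ) : j ≤ prn i j := by
  unfold prn
  nlinarith

/-- uniqueness of the computation -/
theorem of_mulG {X Y Z : (Mod hS hG).Str} (h : (Mod hS hG).MulG X Y Z) :
    ∀ᶠ n in (UU : Filter ℕ), rep Z.1 n = rep X.1 n * rep Y.1 n := by
  obtain ⟨W, hW0, hWs, hWl⟩ := h
  obtain ⟨hX, a, ha⟩ := X.2
  obtain ⟨hY, b, hb⟩ := Y.2
  obtain ⟨hWH, c, hc⟩ := W.2
  have claim : ∀ (i : (Mod hS hG).Num) (P : (Mod hS hG).Str),
      (Mod hS hG).le i ((Mod hS hG).len X) →
      (∀ᶠ n in (UU : Filter ℕ), rep P.1 n = part (rep Y.1 n) (rep X.1 n) (rep i.1 n)) →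
      ∀ j, ((Mod hS hG).row W i j ↔ (Mod hS hG).mem j P) := by
    by_contra hcon
    push Not at hcon
    obtain ⟨i₀, P₀, hi₀, hP₀, j₀, hj₀⟩ := hcon
    -- badness in the coordinates
    have bad_of : ∀ (i : (Mod hS hG).Num) (P : (Mod hS hG).Str) (j : (Mod hS hG).Num),
        (Mod hS hG).le i ((Mod hS hG).len X) →
        (∀ᶠ n in (UU : Filter ℕ), rep P.1 n = part (rep Y.1 n) (rep X.1 n) (rep i.1 n)) →
        ¬ ((Mod hS hG).row W i j ↔ (Mod hS hG).mem j P) →
        ∀ᶠ n in (UU : Filter ℕ), Bad (rep W.1 n) (rep X.1 n) (rep Y.1 n) (rep i.1 n)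
          (rep j.1 n) := by
      intro i P j hi hP hne
      rw [mod_le] at hi
      unfold TS.row at hne
      rw [mod_mem, mod_mem] at hne
      have h1 := ev_not_iff hne
      filter_upwards [h1, hi, hP, r_len hS hG X, r_pr hS hG i j] with n h2 h3 h4 h5 h6
      rw [h6, h4] at h2
      rw [h5] at h3
      refine ⟨h3, ?_, h2⟩
      by_contra h7
      apply h2
      have h8 : Nat.size (rep W.1 n) ≤ prn (rep i.1 n) (rep j.1 n) := by
        have := le_prn (rep i.1 n) (rep j.1 n)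
        omega
      have h9 : (rep W.1 n).testBit (prn (rep i.1 n) (rep j.1 n)) = false :=
        Nat.testBit_lt_two_pow (Nat.size_le.1 h8)
      have h10 : (part (rep Y.1 n) (rep X.1 n) (rep i.1 n)).testBit (rep j.1 n) = false :=
        Nat.testBit_lt_two_pow (lt_of_lt_of_le (part_lt _ _ _)
          (Nat.pow_le_pow_right (by norm_num) (by omega)))
      rw [h9, h10]
    have hbad₀ := bad_of i₀ P₀ j₀ hi₀ hP₀ (by
      rcases hj₀ with ⟨h1, h2⟩ | ⟨h1, h2⟩
      · exact fun h => h2 (h.1 h1)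
      · exact fun h => h1 (h.2 h2))
    have hf : Hull S G ((fun n => failf (Nat.pair (rep W.1 n) (Nat.pair (rep X.1 n)
        (rep Y.1 n))) : ℕ → ℕ) : U) :=
      hmap hS.failf (hpair (hull_rep hWH) (hpair (hull_rep hX) (hull_rep hY)))
    have hsp : ∀ᶠ n in (UU : Filter ℕ), Bad (rep W.1 n) (rep X.1 n) (rep Y.1 n)
        (failf (Nat.pair (rep W.1 n) (Nat.pair (rep X.1 n) (rep Y.1 n)))).unpair.1
        (failf (Nat.pair (rep W.1 n) (Nat.pair (rep X.1 n) (rep Y.1 n)))).unpair.2 ∧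
        ∀ i j, Bad (rep W.1 n) (rep X.1 n) (rep Y.1 n) i j →
          (failf (Nat.pair (rep W.1 n) (Nat.pair (rep X.1 n) (rep Y.1 n)))).unpair.1 ≤ i := by
      filter_upwards [hbad₀] with n h1
      exact failf_spec ⟨_, _, h1⟩
    have hib : ∀ᶠ n in (UU : Filter ℕ), (failf (Nat.pair (rep W.1 n) (Nat.pair (rep X.1 n)
        (rep Y.1 n)))).unpair.1 ≤ n ^ a := by
      filter_upwards [hsp, ha] with n h1 h2
      exact h1.1.1.trans (size_le_of_lt h2)
    have hjb : ∀ᶠ n in (UU : Filter ℕ), (failf (Nat.pair (rep W.1 n) (Nat.pair (rep X.1 n)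
        (rep Y.1 n)))).unpair.2 ≤ n ^ (c + (b + a + 1) + 1) := by
      filter_upwards [hsp, ha, hb, hc, ev_two] with n h1 h2 h3 h4 h5
      have h6 := size_le_of_lt h2
      have h7 := size_le_of_lt h3
      have h8 := size_le_of_lt h4
      have h9 := pow_add_pow_le (i := n) (n := b) (m := a) h5
      have h10 := pow_add_pow_le (i := n) (n := c) (m := b + a + 1) h5
      have h11 := h1.1.2.1
      omega
    have hir := rep_mkN hS hG _ (hmap hS.cl.fst hf) a hib
    have hjr := rep_mkN hS hG _ (hmap hS.cl.snd hf) _ hjb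
    set i₁ := mkN hS hG _ (hmap hS.cl.fst hf) a hib with hi₁
    set j₁ := mkN hS hG _ (hmap hS.cl.snd hf) _ hjb with hj₁
    have hi₁le : (Mod hS hG).le i₁ ((Mod hS hG).len X) := by
      rw [mod_le]
      filter_upwards [hir, hsp, r_len hS hG X] with n h1 h2 h3
      rw [h1, h3]
      exact h2.1.1
    obtain ⟨P₁, hP₁⟩ := exists_part hS hG X Y i₁
    have hbad₁ : ¬ ((Mod hS hG).row W i₁ j₁ ↔ (Mod hS hG).mem j₁ P₁) := by
      unfold TS.row
      rw [mod_mem, mod_mem]
      refine ev_imp_not_iff ?_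
      filter_upwards [hir, hjr, hsp, hP₁, r_pr hS hG i₁ j₁] with n h1 h2 h3 h4 h5
      rw [h5, h4, h1, h2]
      exact h3.1.2.2
    by_cases h0 : i₁ = (Mod hS hG).zero
    · apply hbad₁
      refine iff_of_false ?_ ?_
      · rw [h0]
        exact hW0 j₁
      · rw [mod_mem, ← Ultrafilter.eventually_not]
        filter_upwards [hP₁, r_zero hS hG] with n h1 h2
        rw [h1, h0, h2]
        simp [part, Nat.mod_one]
    · obtain ⟨k, hk1, hk2⟩ := mod_b12 hS hG i₁ h0
      have hkr : ∀ᶠ n in (UU : Filter ℕ), rep i₁.1 n = rep k.1 n + 1 := by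
        rw [← hk2]
        filter_upwards [r_add hS hG k (Mod hS hG).one, r_one hS hG] with n h1 h2
        rw [h1, h2]
      have hi₁le' := hi₁le
      rw [mod_le] at hi₁le'
      have hklt : (Mod hS hG).lt k ((Mod hS hG).len X) := by
        rw [mod_lt]
        filter_upwards [hkr, hi₁le'] with n h1 h2
        omega
      have hkle : (Mod hS hG).le k ((Mod hS hG).len X) := by
        rw [mod_le]
        filter_upwards [hkr, hi₁le'] with n h1 h2
        omega
      obtain ⟨Pk, hPk⟩ := exists_part hS hG X Y k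
      obtain ⟨T, hT⟩ := exists_shift hS hG Y k
      have hrowk : (Mod hS hG).row W k = fun j => (Mod hS hG).mem j Pk := by
        funext j
        apply propext
        by_contra hne
        have hb := bad_of k Pk j hkle hPk hne
        obtain ⟨n, h1, h2, h3, h4⟩ := (hb.and (hsp.and (hkr.and hir))).exists
        have h5 := h2.2 _ _ h1
        omega
      have hrec := hWs k hklt j₁
      rw [hk2, hrowk, shift_iff hS hG hT] at hrec
      apply hbad₁
      rw [hrec]
      refine (part_rec hS hG j₁ hPk ?_ hT).symm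
      filter_upwards [hP₁, hkr] with n h1 h2
      rw [h1, h2]
  obtain ⟨P, hP⟩ := exists_part hS hG X Y ((Mod hS hG).len X)
  have hZP : Z = P := by
    refine str_ext hS hG (fun j => ?_)
    rw [hWl j, claim _ P (by
      rw [mod_le]
      exact Eventually.of_forall (fun n => le_rfl)) hP]
  rw [hZP]
  filter_upwards [hP, r_len hS hG X] with n h1 h2
  rw [h1, h2, part_size, mul_comm]

/-- the graph of multiplication in the model -/
theorem mulG_iff (X Y Z : (Mod hS hG).Str) : (Mod hS hG).MulG X Y Z ↔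
    ∀ᶠ n in (UU : Filter ℕ), rep Z.1 n = rep X.1 n * rep Y.1 n :=
  ⟨of_mulG hS hG, mulG_of hS hG⟩

/-- the model satisfies `VTC⁰` -/
theorem isVTC0 : IsVTC0 (Mod hS hG) where
  b1 x := by
    rw [num_ne]
    filter_upwards [r_add hS hG x (Mod hS hG).one, r_one hS hG, r_zero hS hG] with n h1 h2 h3
    rw [h1, h2, h3]
    omega
  b2 x y h := by
    rw [num_eq] at h ⊢
    filter_upwards [r_add hS hG x (Mod hS hG).one, r_add hS hG y (Mod hS hG).one, h]
      with n h1 h2 h3
    rw [h1, h2] at h3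
    omega
  b3 x := by
    rw [num_eq]
    filter_upwards [r_add hS hG x (Mod hS hG).zero, r_zero hS hG] with n h1 h2
    rw [h1, h2]
    omega
  b4 x y := by
    rw [num_eq]
    filter_upwards [r_add hS hG x ((Mod hS hG).add y (Mod hS hG).one),
      r_add hS hG y (Mod hS hG).one, r_add hS hG ((Mod hS hG).add x y) (Mod hS hG).one,
      r_add hS hG x y] with n h1 h2 h3 h4
    rw [h1, h2, h3, h4]
    omega
  b5 x := by
    rw [num_eq]
    filter_upwards [r_mul hS hG x (Mod hS hG).zero, r_zero hS hG] with n h1 h2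
    rw [h1, h2, mul_zero]
  b6 x y := by
    rw [num_eq]
    filter_upwards [r_mul hS hG x ((Mod hS hG).add y (Mod hS hG).one),
      r_add hS hG y (Mod hS hG).one, r_add hS hG ((Mod hS hG).mul x y) x,
      r_mul hS hG x y, r_one hS hG] with n h1 h2 h3 h4 h5
    rw [h1, h2, h3, h4, h5, mul_add, mul_one]
  b7 x y h1 h2 := by
    rw [mod_le] at h1 h2
    rw [num_eq]
    filter_upwards [h1, h2] with n h3 h4
    omega
  b8 x y := by
    rw [mod_le]
    filter_upwards [r_add hS hG x y] with n h1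
    omega
  b9 x := by
    rw [mod_le]
    filter_upwards [r_zero hS hG] with n h1
    omega
  b10 x y := by
    rw [mod_le, mod_le, ← Ultrafilter.eventually_or]
    exact Eventually.of_forall (fun n => le_total _ _)
  b11 x y := by
    rw [mod_le, mod_lt]
    refine eventually_congr ?_
    filter_upwards [r_add hS hG y (Mod hS hG).one, r_one hS hG] with n h1 h2
    rw [h1, h2]
    omega
  b12 := mod_b12 hS hG
  l1 X y h := by
    rw [mod_mem] at h
    rw [mod_lt]
    filter_upwards [h, r_len hS hG X] with n h1 h2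
    rw [h2]
    exact lt_size_of_testBit h1
  l2 X y h := by
    rw [num_eq] at h
    rw [mod_mem]
    filter_upwards [h, r_len hS hG X, r_add hS hG y (Mod hS hG).one, r_one hS hG]
      with n h1 h2 h3 h4
    rw [h2, h3, h4] at h1
    exact testBit_of_size h1.symm
  se X Y hlen h := by
    refine str_ext hS hG (fun j => ?_)
    rw [num_eq] at hlen
    constructor
    · intro hj
      refine (h j ?_).1 hj
      rw [mod_mem] at hj
      rw [mod_lt]
      filter_upwards [hj, r_len hS hG X] with n h1 h2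
      rw [h2]
      exact lt_size_of_testBit h1
    · intro hj
      refine (h j ?_).2 hj
      rw [mod_mem] at hj
      rw [mod_lt]
      filter_upwards [hj, r_len hS hG Y, hlen] with n h1 h2 h3
      rw [h3, h2]
      exact lt_size_of_testBit h1
  comp := mod_comp hS hG
  numones X y := mod_numones hS hG X y
  mult X Y := by
    obtain ⟨Z, hZ⟩ := exists_mul hS hG X Y
    exact ⟨Z, mulG_of hS hG hZ⟩

end Pool.Agent.H30.VTC
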