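import Pool.Agent.H30.VTC.Mul

set_option autoImplicit false

/-! The ring of binary integers of the model, and the counting argument. -/

namespace Pool.Agent.H30.VTC

open Filter Classical

/-- hyperintegers -/
abbrev ZU : Type := Germ (UU : Filter ℕ) ℤ

/-- the nonnegative hyperinteger given by a hypernatural number -/
noncomputable def toZ (X : U) : ZU := ((fun i => (rep X i : ℤ) : ℕ → ℤ) : ZU)

theorem toZ_eq {X Y : U} : toZ X = toZ Y ↔ ∀ᶠ n in (UU : Filter ℕ), rep X n = rep Y n := by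
  unfold toZ
  rw [Germ.coe_eq]
  exact eventually_congr (Eventually.of_forall (fun n => Int.natCast_inj))

theorem toZ_le {X Y : U} : toZ X ≤ toZ Y ↔ ∀ᶠ n in (UU : Filter ℕ), rep X n ≤ rep Y n := by
  unfold toZ
  rw [Germ.coe_le]
  exact eventually_congr (Eventually.of_forall (fun n => Int.ofNat_le))

theorem toZ_add {X Y Z : U} : toZ X + toZ Y = toZ Z ↔
    ∀ᶠ n in (UU : Filter ℕ), rep Z n = rep X n + rep Y n := by
  unfold toZ
  rw [← Germ.coe_add, Germ.coe_eq]
  refine eventually_congr (Eventually.of_forall (fun n => ?_))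
  simp only [Pi.add_apply]
  constructor
  · intro h; omega
  · intro h; omega

theorem toZ_mul {X Y Z : U} : toZ X * toZ Y = toZ Z ↔
    ∀ᶠ n in (UU : Filter ℕ), rep Z n = rep X n * rep Y n := by
  unfold toZ
  rw [← Germ.coe_mul, Germ.coe_eq]
  refine eventually_congr (Eventually.of_forall (fun n => ?_))
  simp only [Pi.mul_apply]
  constructor
  · intro h; exact_mod_cast h.symm
  · intro h; rw [h]; push_cast; ring

variable {S : Set (ℕ → ℕ)} {G : Set U} (hS : Rich S) (hG : om ∈ G)

theorem exists_zeroS : ∃ Z : (Mod hS hG).Str, ∀ᶠ n in (UU : Filter ℕ), rep Z.1 n = 0 :=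
  ⟨mkS hS hG (fun _ => 0) (hull_const hS hG) 0 (Eventually.of_forall (fun n => by simp)),
    rep_mkS hS hG _ _ _ _⟩

theorem exists_oneS : ∃ Z : (Mod hS hG).Str, ∀ᶠ n in (UU : Filter ℕ), rep Z.1 n = 1 :=
  ⟨mkS hS hG (fun _ => 1) (hull_one hS hG) 0 (Eventually.of_forall (fun n => by simp)),
    rep_mkS hS hG _ _ _ _⟩

/-- the ring of binary integers -/
noncomputable def RM : Subring ZU where
  carrier := {z | ∃ X Y : (Mod hS hG).Str, z = toZ X.1 - toZ Y.1}
  mul_mem' := by
    rintro _ _ ⟨X, Y, rfl⟩ ⟨X', Y', rfl⟩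
    obtain ⟨A, hA⟩ := exists_mul hS hG X X'
    obtain ⟨B, hB⟩ := exists_mul hS hG Y Y'
    obtain ⟨C, hC⟩ := exists_mul hS hG X Y'
    obtain ⟨D, hD⟩ := exists_mul hS hG Y X'
    obtain ⟨P, hP⟩ := exists_add hS hG A B
    obtain ⟨Q, hQ⟩ := exists_add hS hG C D
    refine ⟨P, Q, ?_⟩
    rw [← toZ_add.2 hP, ← toZ_add.2 hQ, ← toZ_mul.2 hA, ← toZ_mul.2 hB, ← toZ_mul.2 hC,
      ← toZ_mul.2 hD]
    ring
  one_mem' := by
    obtain ⟨O, hO⟩ := exists_zeroS hS hG
    obtain ⟨E, hE⟩ := exists_oneS hS hG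
    refine ⟨E, O, ?_⟩
    have h1 : toZ E.1 = 1 := by
      change ((fun i => (rep E.1 i : ℤ) : ℕ → ℤ) : ZU) = ((fun _ => 1 : ℕ → ℤ) : ZU)
      rw [Germ.coe_eq]
      filter_upwards [hE] with n h
      rw [h]; rfl
    have h2 : toZ O.1 = 0 := by
      change ((fun i => (rep O.1 i : ℤ) : ℕ → ℤ) : ZU) = ((fun _ => 0 : ℕ → ℤ) : ZU)
      rw [Germ.coe_eq]
      filter_upwards [hO] with n h
      rw [h]; rfl
    rw [h1, h2, sub_zero]
  add_mem' := by
    rintro _ _ ⟨X, Y, rfl⟩ ⟨X', Y', rfl⟩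
    obtain ⟨P, hP⟩ := exists_add hS hG X X'
    obtain ⟨Q, hQ⟩ := exists_add hS hG Y Y'
    refine ⟨P, Q, ?_⟩
    rw [← toZ_add.2 hP, ← toZ_add.2 hQ]
    ring
  zero_mem' := by
    obtain ⟨O, hO⟩ := exists_zeroS hS hG
    exact ⟨O, O, by rw [sub_self]⟩
  neg_mem' := by
    rintro _ ⟨X, Y, rfl⟩
    exact ⟨Y, X, by ring⟩

theorem toZ_mem (X : (Mod hS hG).Str) : toZ X.1 ∈ RM hS hG := by
  obtain ⟨O, hO⟩ := exists_zeroS hS hG
  refine ⟨X, O, ?_⟩
  have h2 : toZ O.1 = 0 := by
    change ((fun i => (rep O.1 i : ℤ) : ℕ → ℤ) : ZU) = ((fun _ => 0 : ℕ → ℤ) : ZU)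
    rw [Germ.coe_eq]
    filter_upwards [hO] with n h
    rw [h]; rfl
  rw [h2, sub_zero]

/-- the value of a string -/
noncomputable def valM (X : (Mod hS hG).Str) : RM hS hG := ⟨toZ X.1, toZ_mem hS hG X⟩

/-- the order of binary numbers in the model -/
theorem strLe_iff (X Y : (Mod hS hG).Str) : (Mod hS hG).StrLe X Y ↔
    ∀ᶠ n in (UU : Filter ℕ), rep X.1 n ≤ rep Y.1 n := by
  unfold TS.StrLe
  constructor
  · rintro (rfl | ⟨i, hiY, hiX, hj⟩)
    · exact Eventually.of_forall (fun n => le_rfl)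
    · have hne : X ≠ Y := fun h => hiX (h ▸ hiY)
      obtain ⟨t, ht⟩ := exists_tdb hS hG hne
      rw [mod_mem] at hiY
      rw [mod_mem, ← Ultrafilter.eventually_not] at hiX
      have h1 : ∀ᶠ n in (UU : Filter ℕ), rep i.1 n ≤ rep t.1 n := by
        filter_upwards [hiY, hiX, ht] with n h2 h3 h4
        by_contra h5
        have h6 := h4.2 _ (not_le.1 h5)
        rw [h6] at h3
        exact h3 h2
      have h2 : ¬ (Mod hS hG).lt i t := by
        intro h3
        have h4 := hj t h3
        refine ev_imp_not_iff ?_ h4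
        filter_upwards [ht] with n h5
        intro h6
        exact h5.1 (by rw [Bool.eq_iff_iff]; exact h6)
      rw [mod_lt, ← Ultrafilter.eventually_not] at h2
      filter_upwards [hiY, hiX, ht, h1, h2] with n h3 h4 h5 h6 h7
      have h8 : rep t.1 n = rep i.1 n := by omega
      rw [h8] at h5
      refine (Nat.lt_of_testBit (rep i.1 n) (by simpa using h4) h3 h5.2).le
  · intro h
    by_cases hne : X = Y
    · exact Or.inl hne
    · refine Or.inr ?_
      obtain ⟨t, ht⟩ := exists_tdb hS hG hne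
      have key : ∀ᶠ n in (UU : Filter ℕ), (rep Y.1 n).testBit (rep t.1 n) = true ∧
          (rep X.1 n).testBit (rep t.1 n) = false := by
        filter_upwards [ht, h] with n h1 h2
        cases hy : (rep Y.1 n).testBit (rep t.1 n)
        · exfalso
          have hx : (rep X.1 n).testBit (rep t.1 n) = true := by
            have h3 := h1.1
            rw [hy] at h3
            simpa using h3
          have := Nat.lt_of_testBit (rep t.1 n) hy hx (fun j hj => (h1.2 j hj).symm)
          omega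
        · have h3 := h1.1
          rw [hy] at h3
          exact ⟨rfl, by simpa using h3⟩
      refine ⟨t, ?_, ?_, ?_⟩
      · rw [mod_mem]
        filter_upwards [key] with n h1 using h1.1
      · rw [mod_mem, ← Ultrafilter.eventually_not]
        filter_upwards [key] with n h1
        simp [h1.2]
      · intro j hj
        rw [mod_lt] at hj
        rw [mod_mem, mod_mem]
        refine eventually_congr ?_
        filter_upwards [hj, ht] with n h1 h2
        rw [h2.2 _ h1]

/-- the ring of binary integers of the model -/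
theorem binRing : BinRing (Mod hS hG) (RM hS hG) (valM hS hG) where
  inj := by
    intro X Y h
    have h1 : toZ X.1 = toZ Y.1 := congrArg Subtype.val h
    rw [str_eq]
    exact toZ_eq.1 h1
  surj := by
    intro r
    constructor
    · intro hr
      obtain ⟨z, X, Y, rfl⟩ := r
      have h1 : (0 : ZU) ≤ toZ X.1 - toZ Y.1 := hr
      rw [sub_nonneg, toZ_le] at h1
      obtain ⟨Z, hZ⟩ := exists_sub hS hG X Y
      refine ⟨Z, Subtype.ext ?_⟩
      change toZ Z.1 = toZ X.1 - toZ Y.1
      rw [eq_sub_iff_add_eq, toZ_add]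
      filter_upwards [hZ, h1] with n h2 h3
      omega
    · rintro ⟨X, rfl⟩
      change (0 : ZU) ≤ toZ X.1
      change ((fun _ => 0 : ℕ → ℤ) : ZU) ≤ ((fun i => (rep X.1 i : ℤ) : ℕ → ℤ) : ZU)
      rw [Germ.coe_le]
      exact Eventually.of_forall (fun n => by positivity)
  le := by
    intro X Y
    rw [strLe_iff]
    exact toZ_le
  add := by
    intro X Y Z
    rw [addG_iff, ← toZ_add]
    exact Subtype.ext_iff
  mul := by
    intro X Y Z
    rw [mulG_iff, ← toZ_mul]
    exact Subtype.ext_iff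
  discrete := by
    rintro ⟨z, hz⟩ h0
    change (1 : ZU) ≤ z
    have h1 : (0 : ZU) < z := h0
    induction z using Germ.inductionOn with
    | _ f =>
      rw [Germ.coe_pos] at h1
      change ((fun _ => 1 : ℕ → ℤ) : ZU) ≤ (f : ZU)
      rw [Germ.coe_le]
      filter_upwards [h1] with n h2
      exact h2

/-- powers of two are cofinal up to a factor two -/
theorem exists_pow (R : Type) [CommRing R] [LinearOrder R] [IsStrictOrderedRing R]
    (val : (Mod hS hG).Str → R) (hR : BinRing (Mod hS hG) R val) :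
    ∃ p : (Mod hS hG).Num → R, ∀ r : R, 0 < r → ∃ k, p k ≤ r ∧ r ≤ p k + p k := by
  obtain ⟨E, hE⟩ := exists_oneS hS hG
  obtain ⟨O, hO⟩ := exists_zeroS hS hG
  choose pw hpw using fun k => exists_shift hS hG E k
  refine ⟨fun k => val (pw k), ?_⟩
  intro r hr
  obtain ⟨X, rfl⟩ := (hR.surj r).1 hr.le
  have hO0 : val O = 0 := by
    have h1 : val O + val O = val O := by
      rw [hR.add, addG_iff]
      filter_upwards [hO] with n h
      omega
    linarith
  have hX0 : ∀ᶠ n in (UU : Filter ℕ), rep X.1 n ≠ 0 := by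
    have h1 : X ≠ O := by
      rintro rfl
      rw [hO0] at hr
      exact lt_irrefl _ hr
    rw [str_ne] at h1
    filter_upwards [h1, hO] with n h2 h3
    rw [h3] at h2
    exact h2
  obtain ⟨hX, a, ha⟩ := X.2
  have hkb : ∀ᶠ n in (UU : Filter ℕ), Nat.size (rep X.1 n) - 1 ≤ n ^ a := by
    filter_upwards [ha] with n h1
    have := size_le_of_lt h1
    omega
  have hkr := rep_mkN hS hG _ (hmap hS.pred (hmap hS.size (hull_rep hX))) a hkb
  set k := mkN hS hG _ (hmap hS.pred (hmap hS.size (hull_rep hX))) a hkb with hk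
  obtain ⟨T, hT⟩ := exists_add hS hG (pw k) (pw k)
  have hTv : val (pw k) + val (pw k) = val T := by
    rw [hR.add, addG_iff]
    exact hT
  refine ⟨k, ?_, ?_⟩
  · rw [hR.le, strLe_iff]
    filter_upwards [hpw k, hE, hkr, hX0] with n h1 h2 h3 h4
    rw [h1, h2, mul_one, h3]
    by_contra h5
    have h6 := Nat.size_le.2 (not_le.1 h5)
    have h7 := Nat.size_pos.2 (Nat.pos_of_ne_zero h4)
    omega
  · change val X ≤ val (pw k) + val (pw k)
    rw [hTv, hR.le, strLe_iff]
    filter_upwards [hpw k, hE, hkr, hX0, hT] with n h1 h2 h3 h4 h5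
    rw [h5, h1, h2, mul_one, h3]
    have h7 := Nat.size_pos.2 (Nat.pos_of_ne_zero h4)
    have h8 : rep X.1 n < 2 ^ (Nat.size (rep X.1 n)) := Nat.lt_size_self _
    have h9 : 2 ^ (Nat.size (rep X.1 n)) =
        2 ^ (Nat.size (rep X.1 n) - 1) + 2 ^ (Nat.size (rep X.1 n) - 1) := by
      have : Nat.size (rep X.1 n) = (Nat.size (rep X.1 n) - 1) + 1 := by omega
      conv_lhs => rw [this]
      rw [pow_succ]
      ring
    omega

end Pool.Agent.H30.VTC
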