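import Pool.Agent.H30.VTC.Defs
import Pool.Agent.H30.VTC.Ext2

set_option autoImplicit false

/-! The standard two-sorted structure, codes of assignments, and the functions used in the
construction. -/

namespace Pool.Agent.H30.VTC

open Classical

/-- the standard structure: numbers are natural numbers, strings are finite sets of natural
numbers, coded by binary digits -/
@[reducible] def N0 : TS where
  Num := ℕ
  Str := ℕ
  zero := 0
  one := 1
  add := fun x y => x + y
  mul := fun x y => x * y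
  le := fun x y => x ≤ y
  len := Nat.size
  mem := fun x X => X.testBit x = true

/-- the `i`-th entry of the sequence coded by `c` -/
def nth : ℕ → ℕ → ℕ
  | c, 0 => c.unpair.1
  | c, i + 1 => nth c.unpair.2 i

/-- code of `v 0, …, v (N - 1)` -/
def enc : (ℕ → ℕ) → ℕ → ℕ
  | _, 0 => 0
  | v, N + 1 => Nat.pair (v 0) (enc (fun i => v (i + 1)) N)

theorem nth_enc : ∀ (N : ℕ) (v : ℕ → ℕ) (i : ℕ), i < N → nth (enc v N) i = v i
  | 0, _, _, h => absurd h (by omega)
  | N + 1, v, 0, _ => by simp [nth, enc]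
  | N + 1, v, i + 1, h => by
    simp only [nth, enc, Nat.unpair_pair]
    exact nth_enc N (fun i => v (i + 1)) i (by omega)

/-- a bound for the indices of variables in a term -/
def NTm.bd : NTm → ℕ
  | .var i => i + 1
  | .zero => 0
  | .one => 0
  | .add s t => max s.bd t.bd
  | .mul s t => max s.bd t.bd
  | .len i => i + 1

/-- a bound for the indices of variables in a formula -/
def Fm.bd : Fm → ℕ
  | .eq s t => max s.bd t.bd
  | .le s t => max s.bd t.bd
  | .mem t i => max t.bd (i + 1)
  | .seq i j => max (i + 1) (j + 1)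
  | .neg φ => φ.bd
  | .and φ ψ => max φ.bd ψ.bd
  | .all t φ => max t.bd φ.bd

theorem tm_congr (M : TS) (t : NTm) {v v' : ℕ → M.Num} {V V' : ℕ → M.Str}
    (hv : ∀ i < t.bd, v i = v' i) (hV : ∀ i < t.bd, V i = V' i) :
    M.tm v V t = M.tm v' V' t := by
  induction t with
  | var i => exact hv i (by simp [NTm.bd])
  | zero => rfl
  | one => rfl
  | add s t ihs iht =>
    simp only [TS.tm]
    rw [ihs (fun i hi => hv i (lt_of_lt_of_le hi (le_max_left _ _)))
      (fun i hi => hV i (lt_of_lt_of_le hi (le_max_left _ _))),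
      iht (fun i hi => hv i (lt_of_lt_of_le hi (le_max_right _ _)))
      (fun i hi => hV i (lt_of_lt_of_le hi (le_max_right _ _)))]
  | mul s t ihs iht =>
    simp only [TS.tm]
    rw [ihs (fun i hi => hv i (lt_of_lt_of_le hi (le_max_left _ _)))
      (fun i hi => hV i (lt_of_lt_of_le hi (le_max_left _ _))),
      iht (fun i hi => hv i (lt_of_lt_of_le hi (le_max_right _ _)))
      (fun i hi => hV i (lt_of_lt_of_le hi (le_max_right _ _)))]
  | len i =>
    simp only [TS.tm]
    rw [hV i (by simp [NTm.bd])]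

theorem sat_congr (M : TS) (φ : Fm) {V V' : ℕ → M.Str} : ∀ {v v' : ℕ → M.Num},
    (∀ i < φ.bd, v i = v' i) → (∀ i < φ.bd, V i = V' i) → (M.Sat V v φ ↔ M.Sat V' v' φ) := by
  induction φ with
  | eq s t =>
    intro v v' hv hV
    simp only [TS.Sat]
    rw [tm_congr M s (fun i hi => hv i (lt_of_lt_of_le hi (le_max_left _ _)))
      (fun i hi => hV i (lt_of_lt_of_le hi (le_max_left _ _))),
      tm_congr M t (fun i hi => hv i (lt_of_lt_of_le hi (le_max_right _ _)))
      (fun i hi => hV i (lt_of_lt_of_le hi (le_max_right _ _)))]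
  | le s t =>
    intro v v' hv hV
    simp only [TS.Sat]
    rw [tm_congr M s (fun i hi => hv i (lt_of_lt_of_le hi (le_max_left _ _)))
      (fun i hi => hV i (lt_of_lt_of_le hi (le_max_left _ _))),
      tm_congr M t (fun i hi => hv i (lt_of_lt_of_le hi (le_max_right _ _)))
      (fun i hi => hV i (lt_of_lt_of_le hi (le_max_right _ _)))]
  | mem t j =>
    intro v v' hv hV
    simp only [TS.Sat]
    rw [tm_congr M t (fun i hi => hv i (lt_of_lt_of_le hi (le_max_left _ _)))
      (fun i hi => hV i (lt_of_lt_of_le hi (le_max_left _ _))),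
      hV j (lt_of_lt_of_le (Nat.lt_succ_self j) (le_max_right _ _))]
  | seq i j =>
    intro v v' hv hV
    simp only [TS.Sat]
    rw [hV j (lt_of_lt_of_le (Nat.lt_succ_self j) (le_max_right _ _)),
      hV i (lt_of_lt_of_le (Nat.lt_succ_self i) (le_max_left _ _))]
  | neg φ ih =>
    intro v v' hv hV
    simp only [TS.Sat]
    rw [ih hv hV]
  | and φ ψ ih1 ih2 =>
    intro v v' hv hV
    simp only [TS.Sat]
    rw [ih1 (fun i hi => hv i (lt_of_lt_of_le hi (le_max_left _ _)))
      (fun i hi => hV i (lt_of_lt_of_le hi (le_max_left _ _))),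
      ih2 (fun i hi => hv i (lt_of_lt_of_le hi (le_max_right _ _)))
      (fun i hi => hV i (lt_of_lt_of_le hi (le_max_right _ _)))]
  | all t φ ih =>
    intro v v' hv hV
    simp only [TS.Sat]
    rw [tm_congr M t (fun i hi => hv i (lt_of_lt_of_le hi (le_max_left _ _)))
      (fun i hi => hV i (lt_of_lt_of_le hi (le_max_left _ _)))]
    refine forall_congr' (fun x => imp_congr_right (fun _ => ?_))
    refine ih ?_ (fun i hi => hV i (lt_of_lt_of_le hi (le_max_right _ _)))
    intro i hi
    cases i with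
    | zero => rfl
    | succ i => exact hv i (lt_of_lt_of_le (by omega) (le_max_right _ _))

/-! ### numbers with given binary digits -/

/-- the number whose digits at `z < b` are given by `P` -/
noncomputable def ofSet (P : ℕ → Prop) : ℕ → ℕ
  | 0 => 0
  | b + 1 => if P b then 2 ^ b + ofSet P b else ofSet P b

theorem ofSet_lt (P : ℕ → Prop) (b : ℕ) : ofSet P b < 2 ^ b := by
  induction b with
  | zero => simp [ofSet]
  | succ b ih =>
    simp only [ofSet]
    split_ifs <;> rw [pow_succ] <;> omega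

theorem testBit_ofSet (P : ℕ → Prop) (b z : ℕ) : (ofSet P b).testBit z = true ↔ z < b ∧ P z := by
  induction b with
  | zero => simp [ofSet]
  | succ b ih =>
    simp only [ofSet]
    have hlt := ofSet_lt P b
    split_ifs with h
    · rcases lt_trichotomy z b with hz | hz | hz
      · rw [Nat.testBit_two_pow_add_gt hz, ih]
        constructor
        · rintro ⟨_, h2⟩; exact ⟨by omega, h2⟩
        · rintro ⟨_, h2⟩; exact ⟨hz, h2⟩
      · subst hz
        rw [Nat.testBit_two_pow_add_eq, Nat.testBit_lt_two_pow hlt]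
        simp [h]
      · have h3 : 2 ^ b + ofSet P b < 2 ^ z := by
          calc 2 ^ b + ofSet P b < 2 ^ b + 2 ^ b := by omega
            _ = 2 ^ (b + 1) := by ring
            _ ≤ 2 ^ z := Nat.pow_le_pow_right (by norm_num) hz
        rw [Nat.testBit_lt_two_pow h3]
        simp only [Bool.false_eq_true, false_iff, not_and]
        omega
    · rw [ih]
      constructor
      · rintro ⟨h1, h2⟩; exact ⟨by omega, h2⟩
      · rintro ⟨h1, h2⟩
        refine ⟨?_, h2⟩
        rcases Nat.lt_succ_iff_lt_or_eq.1 h1 with h3 | rfl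
        · exact h3
        · exact absurd h2 h

theorem size_le_of_lt {a b : ℕ} (h : a < 2 ^ b) : Nat.size a ≤ b := Nat.size_le.2 h

theorem lt_size_of_testBit {a z : ℕ} (h : a.testBit z = true) : z < Nat.size a := by
  by_contra h1
  have h2 : a < 2 ^ z := Nat.size_le.1 (by omega)
  rw [Nat.testBit_lt_two_pow h2] at h
  exact Bool.noConfusion h

/-! ### the functions -/

/-- a counterexample below the value of `t` -/
noncomputable def sk (t : NTm) (φ : Fm) (c : ℕ) : ℕ :=
  if h : ∃ x, x ≤ N0.tm (nth c.unpair.1) (nth c.unpair.2) t ∧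
    ¬ N0.Sat (nth c.unpair.2) (cons x (nth c.unpair.1)) φ then h.choose else 0

theorem sk_spec (t : NTm) (φ : Fm) (v V : ℕ)
    (h : ∃ x, x ≤ N0.tm (nth v) (nth V) t ∧ ¬ N0.Sat (nth V) (cons x (nth v)) φ) :
    sk t φ (Nat.pair v V) ≤ N0.tm (nth v) (nth V) t ∧
    ¬ N0.Sat (nth V) (cons (sk t φ (Nat.pair v V)) (nth v)) φ := by
  have h' : ∃ x, x ≤ N0.tm (nth (Nat.pair v V).unpair.1) (nth (Nat.pair v V).unpair.2) t ∧
      ¬ N0.Sat (nth (Nat.pair v V).unpair.2) (cons x (nth (Nat.pair v V).unpair.1)) φ := by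
    simpa only [Nat.unpair_pair] using h
  have e : sk t φ (Nat.pair v V) = h'.choose := by
    unfold sk
    rw [dif_pos h']
  rw [e]
  have := h'.choose_spec
  simp only [Nat.unpair_pair] at this ⊢
  exact this

/-- comprehension: input `pair y (pair v V)` -/
noncomputable def cm (φ : Fm) (c : ℕ) : ℕ :=
  ofSet (fun z => N0.Sat (nth c.unpair.2.unpair.2) (cons z (nth c.unpair.2.unpair.1)) φ) c.unpair.1

theorem cm_spec (φ : Fm) (y v V z : ℕ) : (cm φ (Nat.pair y (Nat.pair v V))).testBit z = true ↔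
    z < y ∧ N0.Sat (nth V) (cons z (nth v)) φ := by
  simp [cm, testBit_ofSet]

theorem cm_lt (φ : Fm) (y v V : ℕ) : cm φ (Nat.pair y (Nat.pair v V)) < 2 ^ y := by
  simp [cm, ofSet_lt]

/-- the top position where the digits of `X` and `Y` differ -/
def tdb (c : ℕ) : ℕ := Nat.size (c.unpair.1 ^^^ c.unpair.2) - 1

theorem tdb_spec {X Y : ℕ} (h : X ≠ Y) :
    X.testBit (tdb (Nat.pair X Y)) ≠ Y.testBit (tdb (Nat.pair X Y)) ∧
      ∀ j, tdb (Nat.pair X Y) < j → X.testBit j = Y.testBit j := by
  simp only [tdb, Nat.unpair_pair]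
  have h0 : X ^^^ Y ≠ 0 := by
    intro h1
    exact h (Nat.xor_eq_zero_iff.1 h1)
  have hpos : 0 < Nat.size (X ^^^ Y) := Nat.size_pos.2 (Nat.pos_of_ne_zero h0)
  set m := Nat.size (X ^^^ Y) - 1 with hm
  have h1 : X ^^^ Y < 2 ^ (m + 1) := Nat.size_le.1 (by omega)
  have h2 : 2 ^ m ≤ X ^^^ Y := by
    by_contra h3
    have := Nat.size_le.2 (not_le.1 h3)
    omega
  have h3 : (X ^^^ Y).testBit m = true := by
    have e : X ^^^ Y = 2 ^ m + ((X ^^^ Y) - 2 ^ m) := by omega
    rw [e, Nat.testBit_two_pow_add_eq, Nat.testBit_lt_two_pow]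
    · rfl
    · rw [pow_succ] at h1; omega
  constructor
  · rw [Nat.testBit_xor] at h3
    intro h4
    rw [h4] at h3
    simp at h3
  · intro j hj
    have h4 : (X ^^^ Y).testBit j = false :=
      Nat.testBit_lt_two_pow (lt_of_lt_of_le h1 (Nat.pow_le_pow_right (by norm_num) hj))
    rw [Nat.testBit_xor] at h4
    simpa using h4

theorem tdb_lt {X Y n : ℕ} (hX : X < 2 ^ n) (hY : Y < 2 ^ n) : tdb (Nat.pair X Y) ≤ n := by
  simp only [tdb, Nat.unpair_pair]
  have : X ^^^ Y < 2 ^ n := Nat.xor_lt_two_pow hX hY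
  have := Nat.size_le.2 this
  omega

/-- the number of elements of `X` below `u` -/
noncomputable def cntf : ℕ → ℕ → ℕ
  | _, 0 => 0
  | X, u + 1 => if X.testBit u = true then cntf X u + 1 else cntf X u

theorem cntf_le (X u : ℕ) : cntf X u ≤ u := by
  induction u with
  | zero => simp [cntf]
  | succ u ih =>
    simp only [cntf]
    split_ifs <;> omega

/-- the pairing function on `ℕ` -/
def prn (x y : ℕ) : ℕ := (x + y) * ((x + y) + 1) + (1 + 1) * y

theorem prn_inj {x y x' y' : ℕ} (h : prn x y = prn x' y') : x = x' ∧ y = y' := by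
  unfold prn at h
  have h1 : x + y = x' + y' := by
    rcases lt_trichotomy (x + y) (x' + y') with h2 | h2 | h2
    · exfalso
      nlinarith
    · exact h2
    · exfalso
      nlinarith
  rw [h1] at h
  constructor <;> omega

theorem prn_mono {x y x' y' : ℕ} (hx : x ≤ x') (hy : y ≤ y') : prn x y ≤ prn x' y' := by
  unfold prn
  gcongr

/-- table of the counting function: input `pair X y` -/
noncomputable def numtab (c : ℕ) : ℕ :=
  ofSet (fun z => ∃ u, u ≤ c.unpair.2 ∧ z = prn u (cntf c.unpair.1 u)) (prn c.unpair.2 c.unpair.2 + 1)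

theorem numtab_spec {X y u w : ℕ} (hu : u ≤ y) :
    (numtab (Nat.pair X y)).testBit (prn u w) = true ↔ w = cntf X u := by
  simp only [numtab, testBit_ofSet, Nat.unpair_pair]
  constructor
  · rintro ⟨_, u', _, h⟩
    obtain ⟨rfl, rfl⟩ := prn_inj h
    rfl
  · rintro rfl
    refine ⟨?_, u, hu, rfl⟩
    have := prn_mono hu ((cntf_le X u).trans hu)
    omega

theorem numtab_lt (X y : ℕ) : numtab (Nat.pair X y) < 2 ^ (prn y y + 1) := by
  simp only [numtab, Nat.unpair_pair]
  exact ofSet_lt _ _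

theorem mod_two_pow_succ' (x i : ℕ) :
    x % 2 ^ (i + 1) = x % 2 ^ i + 2 ^ i * (x.testBit i).toNat := by
  rw [Nat.toNat_testBit, Nat.mod_pow_succ]

/-- partial product -/
def part (Y X i : ℕ) : ℕ := Y * (X % 2 ^ i)

theorem part_succ (Y X i : ℕ) : part Y X (i + 1) =
    if X.testBit i = true then part Y X i + 2 ^ i * Y else part Y X i := by
  unfold part
  rw [mod_two_pow_succ']
  split_ifs with h
  · rw [h]; simp; ring
  · simp at h
    rw [h]; simp

theorem part_size (Y X : ℕ) : part Y X (Nat.size X) = Y * X := by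
  unfold part
  rw [Nat.mod_eq_of_lt (Nat.lt_size_self X)]

theorem lt_two_pow_of_mul {a b m n : ℕ} (ha : a < 2 ^ m) (hb : b < 2 ^ n) : a * b < 2 ^ (m + n) := by
  rw [pow_add]
  exact Nat.mul_lt_mul'' ha hb

theorem part_lt (Y X i : ℕ) : part Y X i < 2 ^ (Nat.size Y + Nat.size X) := by
  unfold part
  exact lt_two_pow_of_mul (Nat.lt_size_self Y)
    (lt_of_le_of_lt (Nat.mod_le _ _) (Nat.lt_size_self X))

/-- table of the partial products: input `pair X Y` -/
noncomputable def multab (c : ℕ) : ℕ :=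
  ofSet (fun z => ∃ i j, i ≤ Nat.size c.unpair.1 ∧ z = prn i j ∧
    (part c.unpair.2 c.unpair.1 i).testBit j = true)
    (prn (Nat.size c.unpair.1) (Nat.size c.unpair.2 + Nat.size c.unpair.1) + 1)

theorem multab_spec {X Y i j : ℕ} (hi : i ≤ Nat.size X) :
    (multab (Nat.pair X Y)).testBit (prn i j) = true ↔ (part Y X i).testBit j = true := by
  simp only [multab, testBit_ofSet, Nat.unpair_pair]
  constructor
  · rintro ⟨_, i', j', _, h, h2⟩
    obtain ⟨rfl, rfl⟩ := prn_inj h
    exact h2
  · intro h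
    refine ⟨?_, i, j, hi, rfl, h⟩
    have h1 := lt_size_of_testBit h
    have h2 := size_le_of_lt (part_lt Y X i)
    have := prn_mono hi (show j ≤ Nat.size Y + Nat.size X by omega)
    omega

theorem multab_lt (X Y : ℕ) : multab (Nat.pair X Y) <
    2 ^ (prn (Nat.size X) (Nat.size Y + Nat.size X) + 1) := by
  simp only [multab, Nat.unpair_pair]
  exact ofSet_lt _ _

/-- a failure of the table `W` to be the table of partial products: a code of a pair `(i, j)`
with `i` least possible; input `pair W (pair X Y)` -/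
noncomputable def failf (c : ℕ) : ℕ :=
  if h : ∃ i, i ≤ Nat.size c.unpair.2.unpair.1 ∧ ∃ j, j ≤ Nat.size c.unpair.1 +
      (Nat.size c.unpair.2.unpair.2 + Nat.size c.unpair.2.unpair.1) ∧
      ¬ (c.unpair.1.testBit (prn i j) = true ↔
        (part c.unpair.2.unpair.2 c.unpair.2.unpair.1 i).testBit j = true)
  then Nat.pair (Nat.find h) (Nat.find_spec h).2.choose
  else 0

/-- the property for `failf` -/
def Bad (W X Y i j : ℕ) : Prop := i ≤ Nat.size X ∧ j ≤ Nat.size W + (Nat.size Y + Nat.size X) ∧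
  ¬ (W.testBit (prn i j) = true ↔ (part Y X i).testBit j = true)

theorem failf_spec {W X Y : ℕ} (h : ∃ i j, Bad W X Y i j) :
    Bad W X Y (failf (Nat.pair W (Nat.pair X Y))).unpair.1
      (failf (Nat.pair W (Nat.pair X Y))).unpair.2 ∧
    ∀ i j, Bad W X Y i j → (failf (Nat.pair W (Nat.pair X Y))).unpair.1 ≤ i := by
  have h' : ∃ i, i ≤ Nat.size (Nat.pair W (Nat.pair X Y)).unpair.2.unpair.1 ∧
      ∃ j, j ≤ Nat.size (Nat.pair W (Nat.pair X Y)).unpair.1 +
      (Nat.size (Nat.pair W (Nat.pair X Y)).unpair.2.unpair.2 +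
        Nat.size (Nat.pair W (Nat.pair X Y)).unpair.2.unpair.1) ∧
      ¬ ((Nat.pair W (Nat.pair X Y)).unpair.1.testBit (prn i j) = true ↔
        (part (Nat.pair W (Nat.pair X Y)).unpair.2.unpair.2
          (Nat.pair W (Nat.pair X Y)).unpair.2.unpair.1 i).testBit j = true) := by
    obtain ⟨i, j, h1, h2, h3⟩ := h
    simp only [Nat.unpair_pair]
    exact ⟨i, h1, j, h2, h3⟩
  have e : failf (Nat.pair W (Nat.pair X Y)) =
      Nat.pair (Nat.find h') (Nat.find_spec h').2.choose := by
    unfold failf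
    rw [dif_pos h']
  rw [e]
  have h1 := (Nat.find_spec h').1
  have h2 := (Nat.find_spec h').2.choose_spec
  have h3 : ∀ m, _ → Nat.find h' ≤ m := fun m hm => Nat.find_min' h' hm
  simp only [Nat.unpair_pair] at h1 h2 h3 ⊢
  refine ⟨⟨h1, h2⟩, ?_⟩
  intro i j hij
  exact h3 i ⟨hij.1, j, hij.2.1, hij.2.2⟩

/-! ### the carry -/

theorem carry_iff (a b i : ℕ) : N0.Carry (fun j => a.testBit j = true) (fun j => b.testBit j = true) i
    ↔ 2 ^ i ≤ a % 2 ^ i + b % 2 ^ i := by
  induction i with
  | zero =>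
    simp only [TS.Carry, TS.lt]
    constructor
    · rintro ⟨k, ⟨h1, h2⟩, _⟩
      exact absurd (Nat.le_zero.1 h1) h2
    · intro h
      simp [Nat.mod_one] at h
  | succ i ih =>
    have key : N0.Carry (fun j => a.testBit j = true) (fun j => b.testBit j = true) (i + 1) ↔
        (a.testBit i = true ∧ b.testBit i = true) ∨ ((a.testBit i = true ∨ b.testBit i = true) ∧
          N0.Carry (fun j => a.testBit j = true) (fun j => b.testBit j = true) i) := by
      simp only [TS.Carry, TS.lt]
      constructor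
      · rintro ⟨k, ⟨h1, h2⟩, ha, hb, hj⟩
        rcases eq_or_ne k i with rfl | hk
        · exact Or.inl ⟨ha, hb⟩
        · refine Or.inr ⟨hj i ⟨by omega, hk⟩ ⟨by omega, by omega⟩, k, ⟨by omega, hk⟩, ha, hb, ?_⟩
          intro j h3 h4
          exact hj j h3 ⟨by omega, by omega⟩
      · rintro (⟨ha, hb⟩ | ⟨hab, k, ⟨h1, h2⟩, ha, hb, hj⟩)
        · refine ⟨i, ⟨by omega, by omega⟩, ha, hb, ?_⟩
          rintro j ⟨h1, h2⟩ ⟨h3, h4⟩
          omega
        · refine ⟨k, ⟨by omega, by omega⟩, ha, hb, ?_⟩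
          rintro j ⟨h3, h4⟩ ⟨h5, h6⟩
          rcases eq_or_ne j i with rfl | hji
          · exact hab
          · exact hj j ⟨h3, h4⟩ ⟨by omega, hji⟩
    rw [key, ih, mod_two_pow_succ', mod_two_pow_succ']
    have h1 : a % 2 ^ i < 2 ^ i := Nat.mod_lt _ (by positivity)
    have h2 : b % 2 ^ i < 2 ^ i := Nat.mod_lt _ (by positivity)
    rw [pow_succ]
    cases a.testBit i <;> cases b.testBit i <;> simp <;> omega

theorem sumBit_nat (a b i : ℕ) :
    N0.SumBit (fun j => a.testBit j = true) (fun j => b.testBit j = true) i ↔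
      (a + b).testBit i = true := by
  unfold TS.SumBit
  rw [carry_iff]
  beta_reduce
  have h1 : a % 2 ^ i < 2 ^ i := Nat.mod_lt _ (by positivity)
  have h2 : b % 2 ^ i < 2 ^ i := Nat.mod_lt _ (by positivity)
  have e : (a + b).testBit i = decide ((a + b) % 2 ^ (i + 1) / 2 ^ i = 1) := by
    have h3 := mod_two_pow_succ' (a + b) i
    rw [h3]
    have h4 : (a + b) % 2 ^ i < 2 ^ i := Nat.mod_lt _ (by positivity)
    have h5 : 0 < 2 ^ i := by positivity
    cases hb : (a + b).testBit i
    · simp [Nat.div_eq_of_lt h4]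
    · simp [Nat.add_mul_div_left _ _ h5, Nat.div_eq_of_lt h4]
  have h6 : (a + b) % 2 ^ (i + 1) =
      (a % 2 ^ i + b % 2 ^ i + 2 ^ i * ((a.testBit i).toNat + (b.testBit i).toNat)) % 2 ^ (i + 1) := by
    rw [Nat.add_mod, mod_two_pow_succ' a, mod_two_pow_succ' b]
    congr 1
    ring
  rw [e, h6]
  have h5 : 0 < 2 ^ i := by positivity
  have h7 : (2 : ℕ) ^ (i + 1) = 2 * 2 ^ i := by rw [pow_succ]; ring
  rw [h7]
  generalize 2 ^ i = P at *
  generalize a % P = x at *
  generalize b % P = y at *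
  have hdiv : ∀ q r : ℕ, r < P → (r + P * q) / P = q := by
    intro q r hr
    rw [Nat.add_mul_div_left _ _ h5, Nat.div_eq_of_lt hr, zero_add]
  have hsplit : ∀ z : ℕ, z < 4 * P → (z % (2 * P) / P = 1 ↔ (P ≤ z ∧ z < 2 * P) ∨ 3 * P ≤ z) := by
    intro z hz
    rcases lt_or_ge z (2 * P) with h | h
    · rw [Nat.mod_eq_of_lt h]
      rcases lt_or_ge z P with h' | h'
      · rw [Nat.div_eq_of_lt h']; omega
      · have : z / P = 1 := by
          have := hdiv 1 (z - P) (by omega)
          rw [← this]; congr 1; omega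
        rw [this]; omega
    · have h8 : z % (2 * P) = z - 2 * P := by
        rw [Nat.mod_eq_sub_mod h, Nat.mod_eq_of_lt (by omega)]
      rw [h8]
      rcases lt_or_ge (z - 2 * P) P with h' | h'
      · rw [Nat.div_eq_of_lt h']; omega
      · have : (z - 2 * P) / P = 1 := by
          have := hdiv 1 (z - 2 * P - P) (by omega)
          rw [← this]; congr 1; omega
        rw [this]; omega
  rw [decide_eq_true_iff, hsplit _ (by
    cases a.testBit i <;> cases b.testBit i <;> simp <;> omega)]
  clear h6 e h7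
  rcases lt_or_ge (x + y) P with hc | hc
  · have hc' : ¬ P ≤ x + y := by omega
    cases a.testBit i <;> cases b.testBit i <;> simp [Xor, hc'] <;> omega
  · cases a.testBit i <;> cases b.testBit i <;> simp [Xor, hc] <;> omega

end Pool.Agent.H30.VTC
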